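import Pool.Agent.TH912.LS.Lift

set_option autoImplicit false

/-! Moves inside one ball of radius `O(log n / ε)` and the cardinality potential: ratio `1 + ε`. -/

namespace Pool.Agent.TH912.LS

open Finset

/-- The cardinality potential: the state `true` means selected and `false` means not selected, and a
vertex pays `1` if it is selected. -/
noncomputable def cardCost : LocalCost Bool 0 where
  cost := fun {_} _ σ v => if σ v then 1 else 0
  invariant := by
    rintro V V' G σ v G' σ' v' ⟨e, h1, _, h3⟩
    have h4 := (h1 ⟨v, ball_self G v 0⟩).mp rfl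
    have h5 := h3 ⟨v, ball_self G v 0⟩
    rw [h4] at h5
    have h6 : σ v = σ' v' := h5
    rw [h6]

open Classical in
theorem cardCost_total {V : Type} [Fintype V] (G : SimpleGraph V) (σ : V → Bool) :
    cardCost.total G σ = ((univ.filter fun v => σ v = true).card : ℝ) := by
  unfold LocalCost.total cardCost
  simp only
  rw [card_filter]
  push_cast
  rfl

section grow

variable {V : Type} [Fintype V] [DecidableEq V] (G : SimpleGraph V) [DecidableRel G.Adj]

/-- balls in the graph induced on `W` -/
def gb (W : Finset V) (v : V) : ℕ → Finset V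
  | 0 => {v}
  | j + 1 => gb W v j ∪ W.filter fun x => ∃ y ∈ gb W v j, G.Adj y x

theorem gb_sub (W : Finset V) (v : V) (hv : v ∈ W) : ∀ j, gb G W v j ⊆ W := by
  intro j
  induction j with
  | zero => simpa [gb] using hv
  | succ j ih => exact union_subset ih (filter_subset _ _)

theorem gb_mono (W : Finset V) (v : V) (j : ℕ) : gb G W v j ⊆ gb G W v (j + 1) :=
  subset_union_left

theorem gb_ball (W : Finset V) (v : V) : ∀ j, ∀ x ∈ gb G W v j, x ∈ ball G v j := by
  intro j
  induction j with
  | zero =>
    intro x hx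
    have : x = v := by simpa [gb] using hx
    rw [this]
    exact ball_self G v 0
  | succ j ih =>
    intro x hx
    rcases mem_union.mp hx with h | h
    · exact ball_mono (ih x h) (by omega)
    · obtain ⟨y, hy, hyx⟩ := (mem_filter.mp h).2
      exact ball_trans (ih y hy) (ball_adj hyx)

theorem gb_adj (W : Finset V) (v : V) (j : ℕ) (x y : V) (hx : x ∈ gb G W v j) (hy : y ∈ W)
    (hxy : G.Adj x y) : y ∈ gb G W v (j + 1) :=
  mem_union.mpr (Or.inr (mem_filter.mpr ⟨hy, x, hx, hxy⟩))

theorem v_mem_gb (W : Finset V) (v : V) : ∀ j, v ∈ gb G W v j := by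
  intro j
  induction j with
  | zero => simp [gb]
  | succ j ih => exact gb_mono G W v j ih

theorem grow (C W : Finset V) (v : V) (hv : v ∈ W) (hvC : v ∈ C) (ε : ℝ) (hε : 0 < ε) (N : ℕ)
    (hN : (Fintype.card V : ℝ) ≤ (1 + ε) ^ N) (hN1 : 1 ≤ N) :
    ∃ K X : Finset V, v ∈ K ∧ K ⊆ W ∧ (∀ x ∈ K, x ∈ ball G v (2 * N)) ∧
      (X.card : ℝ) ≤ ε * (C ∩ K).card ∧
      (∀ x ∈ C, x ∈ K → x ∉ X → ∀ y ∈ W, G.Adj x y → y ∈ K) ∧
      (∀ x ∈ C, x ∈ W → x ∉ K → x ∉ X → ∀ y ∈ K, ¬ G.Adj x y) := by
  obtain ⟨i, hi, hle⟩ : ∃ i < N, ((C ∩ gb G W v (2 * i + 2)).card : ℝ) ≤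
      (1 + ε) * (C ∩ gb G W v (2 * i)).card := by
    by_contra hcon
    push Not at hcon
    have h1 : ∀ i ≤ N, (1 + ε) ^ i ≤ ((C ∩ gb G W v (2 * i)).card : ℝ) ∧
        (1 ≤ i → (1 + ε) ^ i < ((C ∩ gb G W v (2 * i)).card : ℝ)) := by
      intro i
      induction i with
      | zero =>
        intro _
        refine ⟨?_, fun h => absurd h (by omega)⟩
        have : v ∈ C ∩ gb G W v 0 := mem_inter.mpr ⟨hvC, v_mem_gb G W v 0⟩
        have h2 : 1 ≤ (C ∩ gb G W v (2 * 0)).card := card_pos.mpr ⟨v, this⟩
        rw [pow_zero]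
        exact_mod_cast h2
      | succ i ih =>
        intro hi
        have h2 := hcon i (by omega)
        have h3 := (ih (by omega)).1
        have h4 : (1 + ε) ^ (i + 1) < ((C ∩ gb G W v (2 * (i + 1))).card : ℝ) := by
          refine lt_of_le_of_lt ?_ h2
          rw [pow_succ, mul_comm]
          gcongr
        exact ⟨h4.le, fun _ => h4⟩
    have h2 := (h1 N le_rfl).2 hN1
    have h3 : ((C ∩ gb G W v (2 * N)).card : ℝ) ≤ Fintype.card V := by
      exact_mod_cast card_le_univ _
    linarith
  refine ⟨gb G W v (2 * i + 1), C ∩ (gb G W v (2 * i + 2) \ gb G W v (2 * i)), v_mem_gb G W v _,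
    gb_sub G W v hv _, ?_, ?_, ?_, ?_⟩
  · intro x hx
    exact ball_mono (gb_ball G W v _ x hx) (by omega)
  · have hsub : gb G W v (2 * i) ⊆ gb G W v (2 * i + 2) :=
      (gb_mono G W v _).trans (gb_mono G W v _)
    have h1 : (C ∩ (gb G W v (2 * i + 2) \ gb G W v (2 * i))).card +
        (C ∩ gb G W v (2 * i)).card = (C ∩ gb G W v (2 * i + 2)).card := by
      rw [← card_union_of_disjoint]
      · congr 1
        ext x
        simp only [mem_union, mem_inter, mem_sdiff]
        constructor
        · rintro (⟨h1, h2, _⟩ | ⟨h1, h2⟩)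
          · exact ⟨h1, h2⟩
          · exact ⟨h1, hsub h2⟩
        · rintro ⟨h1, h2⟩
          by_cases h3 : x ∈ gb G W v (2 * i)
          · exact Or.inr ⟨h1, h3⟩
          · exact Or.inl ⟨h1, h2, h3⟩
      · rw [disjoint_left]
        intro x hx hx'
        simp only [mem_inter, mem_sdiff] at hx hx'
        exact hx.2.2 hx'.2
    have h2 : ((C ∩ (gb G W v (2 * i + 2) \ gb G W v (2 * i))).card : ℝ) +
        (C ∩ gb G W v (2 * i)).card = (C ∩ gb G W v (2 * i + 2)).card := by exact_mod_cast h1
    have h3 : ((C ∩ gb G W v (2 * i)).card : ℝ) ≤ (C ∩ gb G W v (2 * i + 1)).card := by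
      exact_mod_cast card_le_card (inter_subset_inter_left (gb_mono G W v _))
    nlinarith
  · intro x hxC hxK hxX y hy hxy
    have h1 : x ∈ gb G W v (2 * i) := by
      by_contra h
      exact hxX (mem_inter.mpr ⟨hxC, mem_sdiff.mpr ⟨gb_mono G W v _ hxK, h⟩⟩)
    exact gb_adj G W v _ x y h1 hy hxy
  · intro x hxC hxW hxK hxX y hy hxy
    have h1 := gb_adj G W v _ y x hy hxW hxy.symm
    apply hxX
    refine mem_inter.mpr ⟨hxC, mem_sdiff.mpr ⟨h1, fun h => hxK (gb_mono G W v _ h)⟩⟩

theorem clusters (C : Finset V) (ε : ℝ) (hε : 0 < ε) (N : ℕ)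
    (hN : (Fintype.card V : ℝ) ≤ (1 + ε) ^ N) (hN1 : 1 ≤ N) :
    ∀ W : Finset V, ∃ (cl : V → V) (X : Finset V),
      (∀ x ∈ W, x ∈ ball G (cl x) (2 * N)) ∧ (X.card : ℝ) ≤ ε * (C ∩ W).card ∧
      (∀ x ∈ C, x ∈ W → x ∉ X → ∀ y ∈ W, G.Adj x y → cl y = cl x) := by
  intro W
  induction W using Finset.strongInduction with
  | H W ih =>
    by_cases hW : ∃ v ∈ C, v ∈ W
    · obtain ⟨v, hvC, hvW⟩ := hW
      obtain ⟨K, X0, hvK, hKW, hball, hX0, h1, h2⟩ := grow G C W v hvW hvC ε hε N hN hN1
      have hlt : W \ K ⊂ W := by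
        rw [Finset.ssubset_iff_subset_ne]
        refine ⟨sdiff_subset, fun h => ?_⟩
        rw [← h] at hvW
        exact (mem_sdiff.mp hvW).2 hvK
      obtain ⟨cl', X', h3, h4, h5⟩ := ih (W \ K) hlt
      refine ⟨fun x => if x ∈ K then v else cl' x, X0 ∪ X', ?_, ?_, ?_⟩
      · intro x hx
        by_cases hxK : x ∈ K
        · simp only [if_pos hxK]
          exact hball x hxK
        · simp only [if_neg hxK]
          exact h3 x (mem_sdiff.mpr ⟨hx, hxK⟩)
      · have h6 : (C ∩ K).card + (C ∩ (W \ K)).card = (C ∩ W).card := by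
          rw [← card_union_of_disjoint]
          · congr 1
            ext x
            simp only [mem_union, mem_inter, mem_sdiff]
            constructor
            · rintro (⟨a, b⟩ | ⟨a, b, _⟩)
              · exact ⟨a, hKW b⟩
              · exact ⟨a, b⟩
            · rintro ⟨a, b⟩
              by_cases c : x ∈ K
              · exact Or.inl ⟨a, c⟩
              · exact Or.inr ⟨a, b, c⟩
          · rw [disjoint_left]
            intro x hx hx'
            simp only [mem_inter, mem_sdiff] at hx hx'
            exact hx'.2.2 hx.2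
        have h7 : ((C ∩ K).card : ℝ) + (C ∩ (W \ K)).card = (C ∩ W).card := by exact_mod_cast h6
        have h8 : ((X0 ∪ X').card : ℝ) ≤ X0.card + X'.card := by exact_mod_cast card_union_le _ _
        nlinarith
      · intro x hxC hxW hxX y hyW hxy
        rw [mem_union, not_or] at hxX
        by_cases hxK : x ∈ K
        · have hyK := h1 x hxC hxK hxX.1 y hyW hxy
          simp only [if_pos hxK, if_pos hyK]
        · have hyK : y ∉ K := fun hyK => h2 x hxC hxW hxK hxX.1 y hyK hxy
          simp only [if_neg hxK, if_neg hyK]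
          exact h5 x hxC (mem_sdiff.mpr ⟨hxW, hxK⟩) hxX.2 y (mem_sdiff.mpr ⟨hyW, hyK⟩) hxy
    · push Not at hW
      refine ⟨id, ∅, fun x _ => ball_self G x _, by simp; positivity, ?_⟩
      intro x hxC hxW
      exact absurd hxW (hW x hxC)

end grow

open Classical in
theorem upper_log {V : Type} [Fintype V] (G : SimpleGraph V) (σ : V → Bool) (ε : ℝ) (hε : 0 < ε)
    (N t : ℕ) (hN : (Fintype.card V : ℝ) ≤ (1 + ε) ^ N) (hN1 : 1 ≤ N) (ht : 2 * N ≤ t)
    (hσ : LocalOpt cardCost {true} 1 t G σ) (K : Set V) (hK : G.IsVertexCover K) :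
    (1 - ε) * (sel {true} σ).ncard ≤ K.ncard := by
  obtain ⟨hcov, hopt⟩ := hσ
  set C : Finset V := univ.filter fun v => σ v = true with hC
  obtain ⟨cl, X, h1, h2, h3⟩ := clusters G C ε hε N hN hN1 univ
  rw [inter_univ] at h2
  set K' : Finset V := univ.filter fun v => v ∈ K with hK'
  have key : ∀ c : V, (C.filter fun x => cl x = c).card ≤
      (K'.filter fun x => cl x = c).card + (X.filter fun x => cl x = c).card := by
    intro c
    let σ' : V → Bool := fun x => if cl x = c then decide (x ∈ K ∨ x ∈ X) else σ x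
    have hσ' : G.IsVertexCover (sel {true} σ') := by
      have hhalf : ∀ x y, G.Adj x y → cl x = c → cl y ≠ c → σ' x = true ∨ σ' y = true := by
        intro x y hxy hx hy
        simp only [σ', if_pos hx, if_neg hy, decide_eq_true_eq]
        rcases hcov hxy with h | h
        · have hxC : x ∈ C := mem_filter.mpr ⟨mem_univ _, h⟩
          by_cases hxX : x ∈ X
          · exact Or.inl (Or.inr hxX)
          · exact absurd ((h3 x hxC (mem_univ _) hxX y (mem_univ _) hxy).trans hx) hy
        · exact Or.inr h
      intro x y hxy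
      show σ' x = true ∨ σ' y = true
      by_cases hx : cl x = c <;> by_cases hy : cl y = c
      · simp only [σ', if_pos hx, if_pos hy, decide_eq_true_eq]
        rcases hK hxy with h | h
        · exact Or.inl (Or.inl h)
        · exact Or.inr (Or.inl h)
      · exact hhalf x y hxy hx hy
      · exact (hhalf y x hxy.symm hy hx).symm
      · simp only [σ', if_neg hx, if_neg hy]
        exact hcov hxy
    have hle : cardCost.total G σ ≤ cardCost.total G σ' := by
      by_contra hlt
      push Not at hlt
      refine hopt σ' ⟨hσ', ⟨{c}, by simp, ?_⟩, hlt⟩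
      intro v hv
      refine ⟨c, by simp, ?_⟩
      have hvc : cl v = c := by
        by_contra h
        exact hv (if_neg h)
      have h4 := h1 v (mem_univ _)
      rw [hvc] at h4
      exact ball_mono h4 ht
    rw [cardCost_total, cardCost_total] at hle
    have hle' : (univ.filter fun v => σ v = true).card ≤ (univ.filter fun v => σ' v = true).card := by
      exact_mod_cast hle
    have h5 := card_filter_add_card_filter_not (s := univ.filter fun v => σ v = true)
      (fun x => cl x = c)
    have h6 := card_filter_add_card_filter_not (s := univ.filter fun v => σ' v = true)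
      (fun x => cl x = c)
    have h7 : ((univ.filter fun v => σ v = true).filter fun x => ¬ cl x = c) =
        ((univ.filter fun v => σ' v = true).filter fun x => ¬ cl x = c) := by
      ext x
      simp only [mem_filter, mem_univ, true_and]
      constructor
      · rintro ⟨a, b⟩
        exact ⟨by simp only [σ', if_neg b]; exact a, b⟩
      · rintro ⟨a, b⟩
        simp only [σ', if_neg b] at a
        exact ⟨a, b⟩
    have h8 : ((univ.filter fun v => σ' v = true).filter fun x => cl x = c) ⊆
        (K'.filter fun x => cl x = c) ∪ (X.filter fun x => cl x = c) := by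
      intro x hx
      simp only [mem_filter, mem_univ, true_and, mem_union, K'] at hx ⊢
      obtain ⟨a, b⟩ := hx
      simp only [σ', if_pos b, decide_eq_true_eq] at a
      rcases a with a | a
      · exact Or.inl ⟨a, b⟩
      · exact Or.inr ⟨a, b⟩
    have h9 := (card_le_card h8).trans (card_union_le _ _)
    rw [h7] at h5
    show ((univ.filter fun v => σ v = true).filter fun x => cl x = c).card ≤ _
    omega
  have hsum : C.card ≤ K'.card + X.card := by
    rw [card_eq_sum_card_fiberwise (f := cl) (t := univ) (fun x _ => mem_univ _),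
      card_eq_sum_card_fiberwise (s := K') (f := cl) (t := univ) (fun x _ => mem_univ _),
      card_eq_sum_card_fiberwise (s := X) (f := cl) (t := univ) (fun x _ => mem_univ _),
      ← sum_add_distrib]
    exact sum_le_sum fun c _ => key c
  have h10 : (sel {true} σ).ncard = C.card := by
    rw [← Set.ncard_coe_finset]
    congr 1
    ext x
    simp [sel, C]
  have h11 : K.ncard = K'.card := by
    rw [← Set.ncard_coe_finset]
    congr 1
    ext x
    simp [K']
  rw [h10, h11]
  have h12 : (C.card : ℝ) ≤ K'.card + X.card := by exact_mod_cast hsum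
  linarith

end Pool.Agent.TH912.LS
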