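import Pool.Agent.TH912.LS.Lift

set_option autoImplicit false

/-! A potential of radius `2` with moves inside one ball of radius `1`: ratio `2`. -/

namespace Pool.Agent.TH912.LS

open Finset

/-- `v` is matched to `w`: they are adjacent and have the same label, and neither of them has another
neighbour with this label. -/
def MatchedTo {V : Type} {L : Type} (G : SimpleGraph V) (σ : V → Option L) (v w : V) : Prop :=
  σ v ≠ none ∧ G.Adj v w ∧ σ w = σ v ∧ (∀ w', G.Adj v w' → σ w' = σ v → w' = w) ∧
    ∀ v', G.Adj w v' → σ v' = σ v → v' = v

theorem MatchedTo.symm {V L : Type} {G : SimpleGraph V} {σ : V → Option L} {v w : V}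
    (h : MatchedTo G σ v w) : MatchedTo G σ w v := by
  obtain ⟨h1, h2, h3, h4, h5⟩ := h
  refine ⟨by rwa [h3], h2.symm, h3.symm, ?_, ?_⟩
  · intro w' hw' h
    exact h5 w' hw' (h.trans h3)
  · intro v' hv' h
    exact h4 v' hv' (h.trans h3)

theorem matched_view {V V' L : Type} {G : SimpleGraph V} {G' : SimpleGraph V'}
    {σ : V → Option L} {σ' : V' → Option L} {v : V} {v' : V'}
    (h : SameView 2 G σ v G' σ' v') (hm : ∃ w, MatchedTo G σ v w) :
    ∃ w, MatchedTo G' σ' v' w := by
  obtain ⟨e, h1, h2, h3⟩ := h
  obtain ⟨w, m1, m2, m3, m4, m5⟩ := hm
  have hw : w ∈ ball G v 2 := ball_mono (ball_adj m2) (by omega)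
  have e0 : (e ⟨v, ball_self G v 2⟩ : V') = v' := (h1 ⟨v, ball_self G v 2⟩).mp rfl
  have s0 : σ v = σ' v' := by
    have := h3 ⟨v, ball_self G v 2⟩
    rwa [e0] at this
  have sw : σ w = σ' (e ⟨w, hw⟩) := h3 ⟨w, hw⟩
  have adj0 : G'.Adj v' (e ⟨w, hw⟩) := by
    have := (h2 ⟨v, ball_self G v 2⟩ ⟨w, hw⟩).mp m2
    rwa [e0] at this
  refine ⟨e ⟨w, hw⟩, by rwa [← s0], adj0, by rw [← sw, ← s0, m3], ?_, ?_⟩
  · intro x hx hσx
    have hxb : x ∈ ball G' v' 2 := ball_mono (ball_adj hx) (by omega)
    obtain ⟨⟨y, hy⟩, hye⟩ := e.surjective ⟨x, hxb⟩
    have hyx : (e ⟨y, hy⟩ : V') = x := congrArg Subtype.val hye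
    have a1 : G.Adj v y := by
      apply (h2 ⟨v, ball_self G v 2⟩ ⟨y, hy⟩).mpr
      rw [e0, hyx]
      exact hx
    have a2 : σ y = σ v := by
      have := h3 ⟨y, hy⟩
      rw [hyx, hσx, ← s0] at this
      exact this
    have a3 := m4 y a1 a2
    subst a3
    exact hyx.symm
  · intro x hx hσx
    have hxb : x ∈ ball G' v' 2 := ball_trans (ball_adj adj0) (ball_adj hx)
    obtain ⟨⟨y, hy⟩, hye⟩ := e.surjective ⟨x, hxb⟩
    have hyx : (e ⟨y, hy⟩ : V') = x := congrArg Subtype.val hye
    have a1 : G.Adj w y := by
      apply (h2 ⟨w, hw⟩ ⟨y, hy⟩).mpr
      rw [hyx]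
      exact hx
    have a2 : σ y = σ v := by
      have := h3 ⟨y, hy⟩
      rw [hyx, hσx, ← s0] at this
      exact this
    have a3 := m5 y a1 a2
    subst a3
    rw [← hyx]
    exact e0

theorem SameView.symm {r : ℕ} {S V V' : Type} {G : SimpleGraph V} {G' : SimpleGraph V'}
    {σ : V → S} {σ' : V' → S} {v : V} {v' : V'} (h : SameView r G σ v G' σ' v') :
    SameView r G' σ' v' G σ v := by
  obtain ⟨e, h1, h2, h3⟩ := h
  refine ⟨e.symm, ?_, ?_, ?_⟩
  · intro x
    have := h1 (e.symm x)
    rw [Equiv.apply_symm_apply] at this
    exact this.symm
  · intro x y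
    have := h2 (e.symm x) (e.symm y)
    rw [Equiv.apply_symm_apply, Equiv.apply_symm_apply] at this
    exact this.symm
  · intro x
    have := h3 (e.symm x)
    rw [Equiv.apply_symm_apply] at this
    exact this.symm

open Classical in
/-- The matching potential: a vertex carries a label or none; it is selected if it carries one. A
vertex pays `1` if it is selected but not matched. -/
noncomputable def matchCost (L : Type) : LocalCost (Option L) 2 where
  cost := fun {_} G σ v => if σ v = none ∨ ∃ w, MatchedTo G σ v w then 0 else 1
  invariant := by
    intro V V' G σ v G' σ' v' h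
    have h0 : σ v = σ' v' := by
      obtain ⟨e, h1, _, h3⟩ := h
      have e0 : (e ⟨v, ball_self G v 2⟩ : V') = v' := (h1 ⟨v, ball_self G v 2⟩).mp rfl
      have := h3 ⟨v, ball_self G v 2⟩
      rwa [e0] at this
    have h1 : (∃ w, MatchedTo G σ v w) ↔ ∃ w, MatchedTo G' σ' v' w :=
      ⟨fun hm => matched_view h hm, fun hm => matched_view h.symm hm⟩
    simp only [h0, h1]

open Classical in
theorem upper_two {V L : Type} [Fintype V] [Fintype L] (hL : Fintype.card V < Fintype.card L)
    (G : SimpleGraph V) (σ : V → Option L)
    (hσ : LocalOpt (matchCost L) {s | s ≠ none} 1 1 G σ) (K : Set V) (hK : G.IsVertexCover K) :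
    (sel {s | s ≠ none} σ).ncard ≤ 2 * K.ncard := by
  obtain ⟨hcov, hopt⟩ := hσ
  have hcov' : ∀ x y, G.Adj x y → σ x ≠ none ∨ σ y ≠ none := fun x y hxy => hcov hxy
  -- costs
  have hc0 : ∀ (τ : V → Option L) v, 0 ≤ (matchCost L).cost G τ v := by
    intro τ v
    unfold matchCost
    dsimp only
    split_ifs <;> norm_num
  have hc1 : ∀ (τ : V → Option L) v, (matchCost L).cost G τ v ≤ 1 := by
    intro τ v
    unfold matchCost
    dsimp only
    split_ifs <;> norm_num
  have hcz : ∀ (τ : V → Option L) v, (τ v = none ∨ ∃ w, MatchedTo G τ v w) →
      (matchCost L).cost G τ v = 0 := by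
    intro τ v h
    exact if_pos h
  have hco : ∀ (τ : V → Option L) v, ¬ (τ v = none ∨ ∃ w, MatchedTo G τ v w) →
      (matchCost L).cost G τ v = 1 := by
    intro τ v h
    exact if_neg h
  -- every selected vertex is matched
  have hall : ∀ v, σ v ≠ none → ∃ w, MatchedTo G σ v w := by
    intro v hv
    by_contra hun
    have hv1 : ¬ (σ v = none ∨ ∃ w, MatchedTo G σ v w) := by
      push Not
      exact ⟨hv, fun w hw => hun ⟨w, hw⟩⟩
    by_cases hcase : ∃ w, G.Adj v w ∧ ¬ ∃ x, MatchedTo G σ w x
    · obtain ⟨w, hvw, hw⟩ := hcase
      -- a fresh label
      obtain ⟨i, hi⟩ : ∃ i : L, ∀ x, σ x ≠ some i := by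
        by_contra hcon
        push Not at hcon
        choose g hg using hcon
        have hinj : Function.Injective g := by
          intro a b hab
          have := hg a
          rw [hab, hg b] at this
          exact (Option.some.inj this).symm
        exact absurd (Fintype.card_le_of_injective g hinj) (by omega)
      let τ : V → Option L := fun x => if x = v ∨ x = w then some i else σ x
      have hτv : τ v = some i := if_pos (Or.inl rfl)
      have hτw : τ w = some i := if_pos (Or.inr rfl)
      have hτx : ∀ x, x ≠ v → x ≠ w → τ x = σ x := fun x h1 h2 => if_neg (by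
        push Not; exact ⟨h1, h2⟩)
      have hτi : ∀ x, τ x = some i → x = v ∨ x = w := by
        intro x hx
        by_contra h
        push Not at h
        rw [hτx x h.1 h.2] at hx
        exact hi x hx
      have hmvw : MatchedTo G τ v w := by
        refine ⟨by rw [hτv]; simp, hvw, by rw [hτv, hτw], ?_, ?_⟩
        · intro x hx hx'
          rw [hτv] at hx'
          rcases hτi x hx' with rfl | rfl
          · exact absurd hx (G.loopless.irrefl _)
          · rfl
        · intro x hx hx'
          rw [hτv] at hx'
          rcases hτi x hx' with rfl | rfl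
          · rfl
          · exact absurd hx (G.loopless.irrefl _)
      apply hopt τ
      refine ⟨?_, ⟨{v}, by simp, ?_⟩, ?_⟩
      · intro x y hxy
        show τ x ≠ none ∨ τ y ≠ none
        have hmon : ∀ z, σ z ≠ none → τ z ≠ none := by
          intro z hz
          by_cases h1 : z = v ∨ z = w
          · show (if z = v ∨ z = w then some i else σ z) ≠ none
            rw [if_pos h1]; simp
          · show (if z = v ∨ z = w then some i else σ z) ≠ none
            rw [if_neg h1]; exact hz
        rcases hcov' x y hxy with h | h
        · exact Or.inl (hmon x h)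
        · exact Or.inr (hmon y h)
      · intro x hx
        refine ⟨v, by simp, ?_⟩
        have h1 : x = v ∨ x = w := by
          by_contra h
          push Not at h
          exact hx (hτx x h.1 h.2)
        rcases h1 with rfl | rfl
        · exact ball_self G _ _
        · exact ball_adj hvw
      · unfold LocalCost.total
        apply sum_lt_sum
        · intro x _
          by_cases h1 : x = v ∨ x = w
          · have : (matchCost L).cost G τ x = 0 := by
              apply hcz
              rcases h1 with rfl | rfl
              · exact Or.inr ⟨w, hmvw⟩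
              · exact Or.inr ⟨v, hmvw.symm⟩
            rw [this]
            exact hc0 σ x
          · push Not at h1
            by_cases h2 : σ x = none ∨ ∃ y, MatchedTo G σ x y
            · have : (matchCost L).cost G τ x = 0 := by
                apply hcz
                rcases h2 with h2 | ⟨y, h2⟩
                · exact Or.inl (by rw [hτx x h1.1 h1.2, h2])
                · refine Or.inr ⟨y, ?_⟩
                  have hyv : y ≠ v := by
                    rintro rfl
                    exact hun ⟨x, h2.symm⟩
                  have hyw : y ≠ w := by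
                    rintro rfl
                    exact hw ⟨x, h2.symm⟩
                  obtain ⟨m1, m2, m3, m4, m5⟩ := h2
                  have hx' := hτx x h1.1 h1.2
                  have hy' := hτx y hyv hyw
                  have hback : ∀ z, τ z = σ x → σ z = σ x := by
                    intro z hz
                    by_cases h3 : z = v ∨ z = w
                    · have h4 : τ z = some i := if_pos h3
                      rw [h4] at hz
                      exact absurd hz.symm (hi x)
                    · push Not at h3
                      rwa [hτx z h3.1 h3.2] at hz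
                  refine ⟨by rwa [hx'], m2, by rw [hx', hy', m3], ?_, ?_⟩
                  · intro z hz hz'
                    rw [hx'] at hz'
                    exact m4 z hz (hback z hz')
                  · intro z hz hz'
                    rw [hx'] at hz'
                    exact m5 z hz (hback z hz')
              rw [this]
              exact hc0 σ x
            · rw [hco σ x h2]
              exact hc1 τ x
        · refine ⟨v, mem_univ _, ?_⟩
          rw [hco σ v hv1, hcz τ v (Or.inr ⟨w, hmvw⟩)]
          norm_num
    · push Not at hcase
      let τ : V → Option L := fun x => if x = v then none else σ x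
      have hτv : τ v = none := if_pos rfl
      have hτx : ∀ x, x ≠ v → τ x = σ x := fun x h1 => if_neg h1
      apply hopt τ
      refine ⟨?_, ⟨{v}, by simp, ?_⟩, ?_⟩
      · intro x y hxy
        show τ x ≠ none ∨ τ y ≠ none
        by_cases hx : x = v
        · subst hx
          obtain ⟨z, hz⟩ := hcase y hxy
          exact Or.inr (by rw [hτx y hxy.ne']; exact hz.1)
        · by_cases hy : y = v
          · subst hy
            obtain ⟨z, hz⟩ := hcase x hxy.symm
            exact Or.inl (by rw [hτx x hx]; exact hz.1)
          · rw [hτx x hx, hτx y hy]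
            exact hcov' x y hxy
      · intro x hx
        refine ⟨v, by simp, ?_⟩
        have h1 : x = v := by
          by_contra h
          exact hx (hτx x h)
        subst h1
        exact ball_self G _ _
      · unfold LocalCost.total
        apply sum_lt_sum
        · intro x _
          by_cases h1 : x = v
          · subst h1
            rw [hcz τ x (Or.inl hτv)]
            exact hc0 σ x
          · by_cases h2 : σ x = none ∨ ∃ y, MatchedTo G σ x y
            · have : (matchCost L).cost G τ x = 0 := by
                apply hcz
                rcases h2 with h2 | ⟨y, h2⟩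
                · exact Or.inl (by rw [hτx x h1, h2])
                · refine Or.inr ⟨y, ?_⟩
                  have hyv : y ≠ v := by
                    rintro rfl
                    exact hun ⟨x, h2.symm⟩
                  obtain ⟨m1, m2, m3, m4, m5⟩ := h2
                  have hx' := hτx x h1
                  have hy' := hτx y hyv
                  have hback : ∀ z, τ z = σ x → σ z = σ x := by
                    intro z hz
                    by_cases h3 : z = v
                    · subst h3
                      rw [hτv] at hz
                      exact absurd hz.symm m1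
                    · rwa [hτx z h3] at hz
                  refine ⟨by rwa [hx'], m2, by rw [hx', hy', m3], ?_, ?_⟩
                  · intro z hz hz'
                    rw [hx'] at hz'
                    exact m4 z hz (hback z hz')
                  · intro z hz hz'
                    rw [hx'] at hz'
                    exact m5 z hz (hback z hz')
              rw [this]
              exact hc0 σ x
            · rw [hco σ x h2]
              exact hc1 τ x
        · refine ⟨v, mem_univ _, ?_⟩
          rw [hco σ v hv1, hcz τ v (Or.inl hτv)]
          norm_num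
  -- counting
  choose! p hp using hall
  let C : Finset V := univ.filter fun v => σ v ≠ none
  have hCp : ∀ v ∈ C, MatchedTo G σ v (p v) := fun v hv => hp v (mem_filter.mp hv).2
  have h1 : C ⊆ (C.filter fun v => v ∈ K) ∪ (C.filter fun v => p v ∈ K) := by
    intro v hv
    rcases hK (hCp v hv).2.1 with h | h
    · exact mem_union_left _ (mem_filter.mpr ⟨hv, h⟩)
    · exact mem_union_right _ (mem_filter.mpr ⟨hv, h⟩)
  have h2 := (card_le_card h1).trans (card_union_le _ _)
  have h3 : (C.filter fun v => v ∈ K).card ≤ (univ.filter fun v => v ∈ K).card :=
    card_le_card (filter_subset_filter _ (subset_univ _))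
  have h4 : (C.filter fun v => p v ∈ K).card ≤ (univ.filter fun v => v ∈ K).card := by
    refine card_le_card_of_injOn p ?_ ?_
    · intro v hv
      have hv' := (mem_filter.mp (mem_coe.mp hv)).2
      exact mem_coe.mpr (mem_filter.mpr ⟨mem_univ _, hv'⟩)
    · intro v hv w hw hvw
      have hv' := hCp v (mem_filter.mp (mem_coe.mp hv)).1
      have hw' := hCp w (mem_filter.mp (mem_coe.mp hw)).1
      rw [hvw] at hv'
      have h5 : σ v = σ w := hv'.2.2.1.symm.trans hw'.2.2.1
      exact hw'.2.2.2.2 v hv'.2.1.symm h5
  have h5 : (sel {s | s ≠ none} σ).ncard = C.card := by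
    rw [← Set.ncard_coe_finset]
    congr 1
    ext x
    simp [sel, C]
  have h6 : K.ncard = (univ.filter fun v => v ∈ K).card := by
    rw [← Set.ncard_coe_finset]
    congr 1
    ext x
    simp
  rw [h5, h6]
  omega

end Pool.Agent.TH912.LS
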