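import Pool.Agent.TH912.LS.Defs

set_option autoImplicit false

/-! Local optima on bipartite double covers. -/

namespace Pool.Agent.TH912.LS

open Classical

variable {U V S : Type}

theorem mem_ball {G : SimpleGraph V} {v u : V} {r : ℕ} :
    u ∈ ball G v r ↔ ∃ w : G.Walk v u, w.length ≤ r := Iff.rfl

theorem ball_self (G : SimpleGraph V) (v : V) (r : ℕ) : v ∈ ball G v r :=
  ⟨SimpleGraph.Walk.nil, by simp⟩

theorem ball_symm {G : SimpleGraph V} {v u : V} {r : ℕ} (h : u ∈ ball G v r) : v ∈ ball G u r := by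
  obtain ⟨w, hw⟩ := h
  exact ⟨w.reverse, by simpa using hw⟩

theorem ball_trans {G : SimpleGraph V} {v u x : V} {r s : ℕ} (h : u ∈ ball G v r)
    (h' : x ∈ ball G u s) : x ∈ ball G v (r + s) := by
  obtain ⟨w, hw⟩ := h
  obtain ⟨w', hw'⟩ := h'
  exact ⟨w.append w', by rw [SimpleGraph.Walk.length_append]; omega⟩

theorem ball_mono {G : SimpleGraph V} {v u : V} {r s : ℕ} (h : u ∈ ball G v r) (hrs : r ≤ s) :
    u ∈ ball G v s := by
  obtain ⟨w, hw⟩ := h
  exact ⟨w, hw.trans hrs⟩

theorem ball_adj {G : SimpleGraph V} {v u : V} (h : G.Adj v u) : u ∈ ball G v 1 :=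
  ⟨h.toWalk, by simp⟩

/-- there is a walk from `u` to `v` of length at most `r` and of parity `p` -/
def W (G : SimpleGraph V) (r : ℕ) (u v : V) (p : Bool) : Prop :=
  ∃ w : G.Walk u v, w.length ≤ r ∧ w.length.bodd = p

theorem W.trans {G : SimpleGraph V} {r s : ℕ} {u v x : V} {p q : Bool} (h : W G r u v p)
    (h' : W G s v x q) : W G (r + s) u x (p ^^ q) := by
  obtain ⟨w, hw, hp⟩ := h
  obtain ⟨w', hw', hq⟩ := h'
  refine ⟨w.append w', ?_, ?_⟩
  · rw [SimpleGraph.Walk.length_append]; omega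
  · rw [SimpleGraph.Walk.length_append, Nat.bodd_add, hp, hq]

theorem W.symm {G : SimpleGraph V} {r : ℕ} {u v : V} {p : Bool} (h : W G r u v p) :
    W G r v u p := by
  obtain ⟨w, hw, hp⟩ := h
  exact ⟨w.reverse, by simpa using hw, by simpa using hp⟩

theorem W.mono {G : SimpleGraph V} {r s : ℕ} {u v : V} {p : Bool} (h : W G r u v p)
    (hrs : r ≤ s) : W G s u v p := by
  obtain ⟨w, hw, hp⟩ := h
  exact ⟨w, hw.trans hrs, hp⟩

theorem W.adj {G : SimpleGraph V} {u v : V} (h : G.Adj u v) : W G 1 u v true :=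
  ⟨h.toWalk, by simp, by simp⟩

/-- the bipartite double cover -/
def dc (G : SimpleGraph U) : SimpleGraph (U × Bool) where
  Adj x y := G.Adj x.1 y.1 ∧ x.2 ≠ y.2
  symm := ⟨fun _ _ h => ⟨h.1.symm, h.2.symm⟩⟩
  loopless := ⟨fun _ h => h.2 rfl⟩

theorem dc_adj (G : SimpleGraph U) (x y : U × Bool) :
    (dc G).Adj x y ↔ G.Adj x.1 y.1 ∧ x.2 ≠ y.2 := Iff.rfl

theorem W_of_walk (G : SimpleGraph U) : ∀ (x y : U × Bool) (w : (dc G).Walk x y),
    ∃ w' : G.Walk x.1 y.1, w'.length = w.length ∧ w'.length.bodd = (x.2 ^^ y.2) := by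
  intro x y w
  induction w with
  | nil => exact ⟨SimpleGraph.Walk.nil, by simp, by simp⟩
  | @cons x z y h w ih =>
    obtain ⟨w', h1, h2⟩ := ih
    refine ⟨SimpleGraph.Walk.cons h.1 w', by simp [h1], ?_⟩
    have h3 := h.2
    rw [SimpleGraph.Walk.length_cons, Nat.bodd_succ, h2]
    revert h3
    cases x.2 <;> cases y.2 <;> cases z.2 <;> simp

theorem walk_of_W (G : SimpleGraph U) {u v : U} (w : G.Walk u v) : ∀ a : Bool,
    ∃ w' : (dc G).Walk (u, a) (v, a ^^ w.length.bodd), w'.length = w.length := by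
  induction w with
  | nil =>
    intro a
    refine ⟨(SimpleGraph.Walk.nil : (dc G).Walk (_, a) (_, a)).copy rfl (by simp), ?_⟩
    rw [SimpleGraph.Walk.length_copy]
    rfl
  | @cons u z v h w ih =>
    intro a
    obtain ⟨w', h1⟩ := ih (!a)
    have hadj : (dc G).Adj (u, a) (z, !a) := ⟨h, by cases a <;> simp⟩
    have he : (v, !a ^^ w.length.bodd) =
        (v, a ^^ (SimpleGraph.Walk.cons h w).length.bodd) := by
      rw [SimpleGraph.Walk.length_cons, Nat.bodd_succ]
      cases a <;> simp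
    refine ⟨(SimpleGraph.Walk.cons hadj w').copy rfl he, ?_⟩
    rw [SimpleGraph.Walk.length_copy, SimpleGraph.Walk.length_cons, SimpleGraph.Walk.length_cons,
      h1]

theorem mem_ball_dc {G : SimpleGraph U} {x y : U × Bool} {r : ℕ} :
    y ∈ ball (dc G) x r ↔ W G r x.1 y.1 (x.2 ^^ y.2) := by
  constructor
  · rintro ⟨w, hw⟩
    obtain ⟨w', h1, h2⟩ := W_of_walk G x y w
    exact ⟨w', by omega, h2⟩
  · rintro ⟨w, hw, hp⟩
    obtain ⟨w', h1⟩ := walk_of_W G w x.2
    have he : (y.1, x.2 ^^ w.length.bodd) = y := by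
      rw [hp]
      ext
      · rfl
      · simp
    refine ⟨w'.copy rfl he, ?_⟩
    rw [SimpleGraph.Walk.length_copy, h1]
    exact hw

/-- no closed walk of odd length at most `L` -/
def NoOdd (G : SimpleGraph V) (L : ℕ) : Prop := ∀ u, ¬ W G L u u true

theorem NoOdd.mono {G : SimpleGraph V} {L L' : ℕ} (h : NoOdd G L) (hL : L' ≤ L) : NoOdd G L' :=
  fun u hu => h u (hu.mono hL)

theorem view_iso {G : SimpleGraph U} {r : ℕ} (hG : NoOdd G (2 * r + 1)) (v : U) (a : Bool)
    (τ : U → S) (σ : U × Bool → S)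
    (h : ∀ x b, (x, b) ∈ ball (dc G) (v, a) r → σ (x, b) = τ x) :
    SameView r (dc G) σ (v, a) G τ v := by
  let f : ball (dc G) (v, a) r → ball G v r := fun x => ⟨x.1.1, by
    obtain ⟨w, hw, _⟩ := mem_ball_dc.mp x.2
    exact ⟨w, hw⟩⟩
  have hinj : Function.Injective f := by
    rintro ⟨⟨x, b⟩, hx⟩ ⟨⟨y, c⟩, hy⟩ hxy
    have h1 : x = y := congrArg Subtype.val hxy
    subst h1
    have h2 := mem_ball_dc.mp hx
    have h3 := mem_ball_dc.mp hy
    simp only at h2 h3
    have h4 := h2.symm.trans h3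
    by_contra hne
    apply hG x
    have hbc : b ≠ c := by
      intro hbc
      exact hne (by subst hbc; rfl)
    have h5 : ((a ^^ b) ^^ (a ^^ c)) = true := by
      revert hbc
      cases a <;> cases b <;> cases c <;> simp
    rw [h5] at h4
    exact h4.mono (by omega)
  have hsurj : Function.Surjective f := by
    rintro ⟨x, w, hw⟩
    refine ⟨⟨(x, a ^^ w.length.bodd), ?_⟩, rfl⟩
    obtain ⟨w', h1⟩ := walk_of_W G w a
    exact ⟨w', by omega⟩
  refine ⟨Equiv.ofBijective f ⟨hinj, hsurj⟩, ?_, ?_, ?_⟩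
  · rintro ⟨⟨x, b⟩, hx⟩
    constructor
    · intro h1
      exact congrArg Prod.fst h1
    · intro h1
      have h1' : x = v := h1
      subst h1'
      have h2 := mem_ball_dc.mp hx
      simp only at h2
      by_contra hne
      have hab : a ≠ b := by
        intro hab
        exact hne (by subst hab; rfl)
      have h5 : (a ^^ b) = true := by
        revert hab
        cases a <;> cases b <;> simp
      rw [h5] at h2
      exact hG x (h2.mono (by omega))
  · rintro ⟨⟨x, b⟩, hx⟩ ⟨⟨y, c⟩, hy⟩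
    constructor
    · intro h1
      exact h1.1
    · intro h1
      have h1' : G.Adj x y := h1
      refine ⟨h1', ?_⟩
      show b ≠ c
      intro hbc
      subst hbc
      have h2 := mem_ball_dc.mp hx
      have h3 := mem_ball_dc.mp hy
      simp only at h2 h3
      have h4 := (h2.trans (W.adj h1')).trans h3.symm
      have h5 : (((a ^^ b) ^^ true) ^^ (a ^^ b)) = true := by
        cases a <;> cases b <;> simp
      rw [h5] at h4
      exact hG v (h4.mono (by omega))
  · rintro ⟨⟨x, b⟩, hx⟩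
    exact h x b hx

theorem view_congr {G : SimpleGraph V} {r : ℕ} {v : V} {σ σ' : V → S}
    (h : ∀ x ∈ ball G v r, σ x = σ' x) : SameView r G σ v G σ' v :=
  ⟨Equiv.refl _, fun _ => Iff.rfl, fun _ _ => Iff.rfl, fun x => h x x.2⟩

theorem cost_congr {r : ℕ} (F : LocalCost S r) {G : SimpleGraph V} {v : V} {σ σ' : V → S}
    (h : ∀ x ∈ ball G v r, σ x = σ' x) : F.cost G σ v = F.cost G σ' v :=
  F.invariant _ _ _ _ _ _ (view_congr h)

/-- the states `σ` on the base lifted to the double cover -/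
def up (τ : U → S) : U × Bool → S := fun x => τ x.1

/-- pushing a change of the lifted states down to the base graph -/
noncomputable def down (τ : U → S) (σ' : U × Bool → S) : U → S :=
  fun u => if σ' (u, true) ≠ τ u then σ' (u, true) else σ' (u, false)

theorem down_eq (τ : U → S) (σ' : U × Bool → S) (u : U) (b : Bool) (h : σ' (u, !b) = τ u) :
    down τ σ' u = σ' (u, b) := by
  unfold down
  cases b with
  | true =>
    simp only [Bool.not_true] at h
    split_ifs with h1
    · rfl
    · push Not at h1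
      rw [h1, h]
  | false =>
    simp only [Bool.not_false] at h
    rw [if_neg (by simpa using h)]

theorem down_cover {d : ℕ} (I : Set S) {G : SimpleGraph U}
    (hG : NoOdd G (d + 1)) (τ : U → S)
    (σ' : U × Bool → S) (hσ' : (dc G).IsVertexCover (sel I σ'))
    (hd : ∀ x y, σ' x ≠ up τ x → σ' y ≠ up τ y → y ∈ ball (dc G) x d) :
    G.IsVertexCover (sel I (down τ σ')) := by
  have hdW : ∀ (u v : U) (a b : Bool), σ' (u, a) ≠ τ u → σ' (v, b) ≠ τ v → W G d u v (a ^^ b) := by
    intro u v a b h1 h2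
    exact mem_ball_dc.mp (hd (u, a) (v, b) h1 h2)
  intro u v huv
  -- find `b` such that `(u, !b)` and `(v, b)` are unchanged
  have hb : ∃ b : Bool, σ' (u, !b) = τ u ∧ σ' (v, b) = τ v := by
    by_contra hcon
    push Not at hcon
    have h1 := hcon true
    have h2 := hcon false
    simp only [Bool.not_true, Bool.not_false] at h1 h2
    have h1' : σ' (u, false) ≠ τ u ∨ σ' (v, true) ≠ τ v := by
      by_cases h : σ' (u, false) = τ u
      · exact Or.inr (h1 h)
      · exact Or.inl h
    have h2' : σ' (u, true) ≠ τ u ∨ σ' (v, false) ≠ τ v := by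
      by_cases h : σ' (u, true) = τ u
      · exact Or.inr (h2 h)
      · exact Or.inl h
    rcases h1' with h1' | h1' <;> rcases h2' with h2' | h2'
    · have h3 := hdW _ _ _ _ h1' h2'
      exact hG u (h3.mono (by omega))
    · have h3 := (hdW _ _ _ _ h1' h2').trans (W.adj huv.symm)
      exact hG u (h3.mono (by omega))
    · have h3 := (hdW _ _ _ _ h1' h2').trans (W.adj huv)
      exact hG v (h3.mono (by omega))
    · have h3 := hdW _ _ _ _ h1' h2'
      exact hG v (h3.mono (by omega))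
  obtain ⟨b, hb1, hb2⟩ := hb
  have h1 := down_eq τ σ' u b hb1
  have h2 := down_eq τ σ' v (!b) (by rwa [Bool.not_not])
  have h3 : (dc G).Adj (u, b) (v, !b) := ⟨huv, by cases b <;> simp⟩
  have h4 := hσ' h3
  show down τ σ' u ∈ I ∨ down τ σ' v ∈ I
  rw [h1, h2]
  exact h4

theorem down_total [Fintype U] {r d : ℕ} (F : LocalCost S r) {G : SimpleGraph U}
    (hG : NoOdd G (d + 2 * r + 1)) (τ : U → S) (σ' : U × Bool → S)
    (hd : ∀ x y, σ' x ≠ up τ x → σ' y ≠ up τ y → y ∈ ball (dc G) x d) :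
    F.total G (down τ σ') - F.total G τ = F.total (dc G) σ' - F.total (dc G) (up τ) := by
  have hcost : ∀ u : U, F.cost G (down τ σ') u - F.cost G τ u =
      ∑ a : Bool, (F.cost (dc G) σ' (u, a) - F.cost (dc G) (up τ) (u, a)) := by
    intro u
    have ha : ∃ a : Bool, ∀ x ∈ ball (dc G) (u, !a) r, σ' x = up τ x := by
      by_contra hcon
      push Not at hcon
      obtain ⟨x, hx, hx'⟩ := hcon true
      obtain ⟨y, hy, hy'⟩ := hcon false
      have h1 := mem_ball_dc.mp hx
      have h2 := mem_ball_dc.mp hy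
      have h3 := mem_ball_dc.mp (hd x y hx' hy')
      have h4 := (h1.trans h3).trans h2.symm
      simp only [Bool.not_true, Bool.not_false] at h4
      have h5 : (((false ^^ x.2) ^^ (x.2 ^^ y.2)) ^^ (true ^^ y.2)) = true := by
        cases x.2 <;> cases y.2 <;> rfl
      rw [h5] at h4
      exact hG u (h4.mono (by omega))
    obtain ⟨a, ha⟩ := ha
    have h0 : F.cost (dc G) σ' (u, !a) = F.cost (dc G) (up τ) (u, !a) := cost_congr F ha
    have h1 : F.cost (dc G) (up τ) (u, a) = F.cost G τ u :=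
      F.invariant _ _ _ _ _ _ (view_iso (hG.mono (by omega)) u a τ (up τ) fun x b _ => rfl)
    have h2 : F.cost (dc G) σ' (u, a) = F.cost G (down τ σ') u := by
      refine F.invariant _ _ _ _ _ _ (view_iso (hG.mono (by omega)) u a (down τ σ') σ' ?_)
      intro x b hx
      symm
      apply down_eq
      have h3 : (x, !b) ∈ ball (dc G) (u, !a) r := by
        rw [mem_ball_dc] at hx ⊢
        simp only at hx ⊢
        have : (!a ^^ !b) = (a ^^ b) := by cases a <;> cases b <;> rfl
        rw [this]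
        exact hx
      exact ha _ h3
    have h3 : (∑ a : Bool, (F.cost (dc G) σ' (u, a) - F.cost (dc G) (up τ) (u, a))) =
        (F.cost (dc G) σ' (u, a) - F.cost (dc G) (up τ) (u, a)) +
        (F.cost (dc G) σ' (u, !a) - F.cost (dc G) (up τ) (u, !a)) := by
      rw [Fintype.sum_bool]
      cases a
      · rw [add_comm]; rfl
      · rfl
    rw [h3, h0, h1, h2]
    ring
  unfold LocalCost.total
  rw [← Finset.sum_sub_distrib, ← Finset.sum_sub_distrib, Fintype.sum_prod_type]
  exact Finset.sum_congr rfl fun u _ => hcost u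

theorem up_total [Fintype U] {r : ℕ} (F : LocalCost S r) {G : SimpleGraph U}
    (hG : NoOdd G (2 * r + 1)) (τ : U → S) :
    F.total (dc G) (up τ) = 2 * F.total G τ := by
  unfold LocalCost.total
  rw [Fintype.sum_prod_type, Finset.mul_sum]
  refine Finset.sum_congr rfl fun u _ => ?_
  have h1 : ∀ a : Bool, F.cost (dc G) (up τ) (u, a) = F.cost G τ u := fun a =>
    F.invariant _ _ _ _ _ _ (view_iso hG u a τ (up τ) fun x b _ => rfl)
  rw [Fintype.sum_bool, h1, h1]
  ring

theorem ball_flip {G : SimpleGraph U} {x y : U × Bool} {t : ℕ}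
    (h : (y.1, !y.2) ∈ ball (dc G) x t) : y ∈ ball (dc G) (x.1, !x.2) t := by
  rw [mem_ball_dc] at h ⊢
  simp only at h ⊢
  have : (!x.2 ^^ y.2) = (x.2 ^^ !y.2) := by cases x.2 <;> cases y.2 <;> rfl
  rw [this]
  exact h

/-- an improving change of small diameter on the double cover is followed by its mirror image -/
theorem two_steps [Fintype U] {r d m t : ℕ} (F : LocalCost S r) (I : Set S) {G : SimpleGraph U}
    (hG : NoOdd G (d + 2 * r + 1)) (τ : U → S) (σ' : U × Bool → S)
    (hstep : Step F I m t (dc G) (up τ) σ')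
    (hd : ∀ x y, σ' x ≠ up τ x → σ' y ≠ up τ y → y ∈ ball (dc G) x d) :
    G.IsVertexCover (sel I (down τ σ')) ∧ F.total G (down τ σ') < F.total G τ ∧
    Step F I m t (dc G) σ' (up (down τ σ')) := by
  obtain ⟨hcov, ⟨T, hT, hTD⟩, hlt⟩ := hstep
  have h1 := down_cover I (hG.mono (by omega)) τ σ' hcov hd
  have h2 := down_total F hG τ σ' hd
  have h3 := up_total F (hG.mono (by omega)) (down τ σ')
  have h4 := up_total F (hG.mono (by omega)) τ
  refine ⟨h1, by linarith, ?_, ?_, by linarith⟩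
  · intro x y hxy
    exact h1 hxy.1
  · refine ⟨T.image fun c => (c.1, !c.2), Finset.card_image_le.trans hT, ?_⟩
    rintro ⟨u, b⟩ hne
    have h5 : σ' (u, !b) ≠ τ u := by
      intro h
      exact hne (down_eq τ σ' u b h)
    obtain ⟨c, hc, hcv⟩ := hTD (u, !b) h5
    refine ⟨(c.1, !c.2), Finset.mem_image_of_mem _ hc, ball_flip hcv⟩

end Pool.Agent.TH912.LS
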