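import Pool.Agent.W179.Erdos
import Pool.Agent.TH912.LS.Lift

set_option autoImplicit false

/-! Graphs of bounded degree without short odd closed walks and without large independent sets
(Erdős' random graphs, with the short cycles and the vertices of large degree deleted). -/

namespace Pool.Agent.TH912.LS

open Finset Pool.Agent.W179.Erdos

open Classical in
theorem main_count' (k g : ℕ) (hk : 1 ≤ k) : ∃ (n s M : ℕ) (_ : NeZero M) (f : Sym2 (Fin n) → Fin M),
    1 ≤ s ∧ n = 2 * k * s ∧ g ≤ s ∧ (n : ℝ) ≤ (2 * k * (8 * k + 1) : ℝ) ^ (2 * g + 5) ∧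
    (X g f).card < k * s ∧
    ((univ.filter fun e => f e = 0).card : ℝ) ≤ 4 * (2 * k * (8 * k + 1)) * n ∧
    ∀ S : Finset (Fin n), S.card = s → ∃ e ∈ pairs S, f e = 0 := by
  -- parameters
  set D : ℝ := 2 * k * (8 * k + 1) with hD
  have hk' : (1 : ℝ) ≤ k := by exact_mod_cast hk
  have hD1 : 1 ≤ D := by rw [hD]; nlinarith
  obtain ⟨M0, hM0, hM0'⟩ : ∃ M0 : ℕ, 4 * (g * D ^ (g + 3)) < M0 ∧
      (M0 : ℝ) ≤ 4 * (g * D ^ (g + 3)) + 1 := by
    refine ⟨⌊4 * (g * D ^ (g + 3))⌋₊ + 1, ?_, ?_⟩
    · push_cast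
      exact Nat.lt_floor_add_one _
    · push_cast
      have := Nat.floor_le (show (0 : ℝ) ≤ 4 * (g * D ^ (g + 3)) by positivity)
      linarith
  set M : ℕ := M0 + 1 with hM
  set s : ℕ := 8 * k * M + 1 with hs
  set n : ℕ := 2 * k * s with hn
  haveI : NeZero M := ⟨by omega⟩
  have hMpos : (0 : ℝ) < M := by exact_mod_cast (by omega : 0 < M)
  have hM1 : (1 : ℝ) ≤ M := by exact_mod_cast (by omega : 1 ≤ M)
  have hkpos : (0 : ℝ) < k := by linarith
  have hsM : (8 * k * M + 1 : ℝ) = s := by rw [hs]; push_cast; ring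
  have hnR : (n : ℝ) = 2 * k * s := by rw [hn]; push_cast; ring
  have hnD : (n : ℝ) ≤ D * M := by
    rw [hnR, ← hsM, hD]; nlinarith
  set Q : ℝ := (M : ℝ) ^ Fintype.card (Sym2 (Fin n)) with hQ
  have hQpos : 0 < Q := by positivity
  by_contra hcon
  push Not at hcon
  have hD2 : (18 : ℝ) ≤ D := by rw [hD]; nlinarith
  have hgs : g ≤ s := by
    have h0 : (g : ℝ) ≤ M := by
      have h1 : (1 : ℝ) ≤ D ^ (g + 3) := one_le_pow₀ hD1
      have h2 : (M0 : ℝ) ≤ M := by exact_mod_cast (by omega : M0 ≤ M)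
      have h3 : (0 : ℝ) ≤ g := by positivity
      nlinarith
    have h1 : g ≤ M := by exact_mod_cast h0
    rw [hs]
    nlinarith
  have hnb : (n : ℝ) ≤ D ^ (2 * g + 5) := by
    have h1 : (g : ℝ) ≤ D ^ g := by
      have h2 : (g : ℝ) ≤ 2 ^ g := by exact_mod_cast (Nat.lt_two_pow_self).le
      exact h2.trans (pow_le_pow_left₀ (by norm_num) (by linarith) _)
    have h2 : (M : ℝ) ≤ 4 * (g * D ^ (g + 3)) + 2 := by
      rw [hM]; push_cast; linarith
    have h3 : (g : ℝ) * D ^ (g + 3) ≤ D ^ g * D ^ (g + 3) := by gcongr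
    have h4 : D ^ g * D ^ (g + 3) = D ^ (2 * g + 3) := by ring
    have h5 : (1 : ℝ) ≤ D ^ (2 * g + 3) := one_le_pow₀ hD1
    have h6 : (M : ℝ) ≤ D ^ (2 * g + 4) := by
      calc (M : ℝ) ≤ 6 * D ^ (2 * g + 3) := by linarith
        _ ≤ D * D ^ (2 * g + 3) := by gcongr; linarith
        _ = D ^ (2 * g + 4) := by ring
    calc (n : ℝ) ≤ D * M := hnD
      _ ≤ D * D ^ (2 * g + 4) := by gcongr
      _ = D ^ (2 * g + 5) := by ring
  have hall : ∀ f : Sym2 (Fin n) → Fin M, k * s ≤ (X g f).card ∨
      4 * D * n < ((univ.filter fun e => f e = 0).card : ℝ) ∨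
      ∃ S : Finset (Fin n), S.card = s ∧ ∀ e ∈ pairs S, f e ≠ 0 := by
    intro f
    by_contra h
    push Not at h
    obtain ⟨S, hS, h2⟩ := hcon n s M inferInstance f (by omega) rfl hgs hnb h.1 h.2.1
    obtain ⟨e, he, h3⟩ := h.2.2 S hS
    exact h2 e he h3
  -- first moment of the number of edges
  have hE : (∑ f : Sym2 (Fin n) → Fin M, ((univ.filter fun e => f e = 0).card : ℝ)) ≤
      D * n * Q := by
    have h1 : (∑ f : Sym2 (Fin n) → Fin M, ((univ.filter fun e => f e = 0).card : ℝ)) =
        ∑ e : Sym2 (Fin n), ((univ.filter fun f : Sym2 (Fin n) → Fin M =>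
          ∀ e' ∈ ({e} : Finset (Sym2 (Fin n))), f e' ∈ ({0} : Finset (Fin M))).card : ℝ) := by
      simp only [card_filter, Nat.cast_sum]
      rw [sum_comm]
      simp
    rw [h1]
    have h2 : ∀ e : Sym2 (Fin n), ((univ.filter fun f : Sym2 (Fin n) → Fin M =>
          ∀ e' ∈ ({e} : Finset (Sym2 (Fin n))), f e' ∈ ({0} : Finset (Fin M))).card : ℝ) =
          Q / M := by
      intro e
      have h3 := count (M := M) ({e} : Finset (Sym2 (Fin n))) ({0} : Finset (Fin M))
      simp only [card_singleton, pow_one, Nat.cast_one, one_mul] at h3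
      rw [eq_div_iff (by positivity)]
      exact h3
    rw [sum_congr rfl fun e _ => h2 e, sum_const, nsmul_eq_mul, card_univ, Sym2.card,
      Fintype.card_fin]
    have h4 : (((n + 1).choose 2 : ℕ) : ℝ) ≤ n * n := by
      have h5 : (n + 1).choose 2 ≤ n * n := by
        rw [Nat.choose_two_right, Nat.add_sub_cancel]
        have : 1 ≤ n := by
          rw [hn]
          have : 1 ≤ k * s := Nat.mul_pos hk (by omega)
          nlinarith
        apply Nat.div_le_of_le_mul
        nlinarith
      exact_mod_cast h5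
    have h6 : (n : ℝ) / M ≤ D := by
      rw [div_le_iff₀ hMpos]
      exact hnD
    calc (((n + 1).choose 2 : ℕ) : ℝ) * (Q / M) ≤ (n * n) * (Q / M) := by gcongr
      _ = (n / M) * n * Q := by ring
      _ ≤ D * n * Q := by gcongr
  have hEE : ((univ.filter fun f : Sym2 (Fin n) → Fin M =>
      4 * D * n < ((univ.filter fun e => f e = 0).card : ℝ)).card : ℝ) ≤ Q / 4 := by
    have h1 : ((univ.filter fun f : Sym2 (Fin n) → Fin M =>
        4 * D * n < ((univ.filter fun e => f e = 0).card : ℝ)).card : ℝ) * (4 * D * n) ≤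
        D * n * Q := by
      refine le_trans ?_ hE
      calc ((univ.filter fun f : Sym2 (Fin n) → Fin M =>
            4 * D * n < ((univ.filter fun e => f e = 0).card : ℝ)).card : ℝ) * (4 * D * n)
          = ∑ f ∈ (univ.filter fun f : Sym2 (Fin n) → Fin M =>
              4 * D * n < ((univ.filter fun e => f e = 0).card : ℝ)),
              (4 * D * n) := by rw [sum_const, nsmul_eq_mul]
        _ ≤ ∑ f ∈ (univ.filter fun f : Sym2 (Fin n) → Fin M =>
              4 * D * n < ((univ.filter fun e => f e = 0).card : ℝ)),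
              ((univ.filter fun e => f e = 0).card : ℝ) :=
            sum_le_sum fun f hf => ((mem_filter.mp hf).2).le
        _ ≤ ∑ f : Sym2 (Fin n) → Fin M, ((univ.filter fun e => f e = 0).card : ℝ) :=
            sum_le_sum_of_subset_of_nonneg (filter_subset _ _) fun _ _ _ => by positivity
    have hnpos : (0 : ℝ) < n := by
      rw [hnR]
      have : (1 : ℝ) ≤ s := by exact_mod_cast (by omega : 1 ≤ s)
      positivity
    have h2 : (0 : ℝ) < D * n := by positivity
    by_contra h
    push Not at h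
    have h3 := mul_lt_mul_of_pos_right h (show (0 : ℝ) < 4 * D * n by positivity)
    nlinarith
  -- first moment of the number of cycles
  have hX : (∑ f : Sym2 (Fin n) → Fin M, ((X g f).card : ℝ)) ≤ g * D ^ (g + 3) * Q := by
    have h1 : (∑ f : Sym2 (Fin n) → Fin M, ((X g f).card : ℝ)) =
        ∑ p : (Σ m : Fin g, (Fin (m.val + 3) → Fin n)),
          ((univ.filter fun f : Sym2 (Fin n) → Fin M => Function.Injective p.2 ∧
            ∀ e ∈ cedges p.2, f e ∈ ({0} : Finset (Fin M))).card : ℝ) := by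
      simp only [X, card_filter, Nat.cast_sum]
      rw [sum_comm]
    rw [h1]
    have h2 : ∀ p : (Σ m : Fin g, (Fin (m.val + 3) → Fin n)),
        ((univ.filter fun f : Sym2 (Fin n) → Fin M => Function.Injective p.2 ∧
            ∀ e ∈ cedges p.2, f e ∈ ({0} : Finset (Fin M))).card : ℝ) ≤
          Q / (M : ℝ) ^ (p.1.val + 3) := by
      intro p
      by_cases hp : Function.Injective p.2
      · have h3 := count (M := M) (cedges p.2) ({0} : Finset (Fin M))
        rw [card_cedges p.2 hp] at h3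
        simp only [card_singleton, Nat.cast_one, one_pow, one_mul] at h3
        rw [le_div_iff₀ (by positivity)]
        refine le_trans (le_of_eq ?_) (le_of_eq h3)
        congr 2
        congr 1
        ext f
        simp [hp]
      · have : (univ.filter fun f : Sym2 (Fin n) → Fin M => Function.Injective p.2 ∧
            ∀ e ∈ cedges p.2, f e ∈ ({0} : Finset (Fin M))) = ∅ := by
          ext f; simp [hp]
        rw [this]
        simp only [card_empty, Nat.cast_zero]
        positivity
    refine (sum_le_sum fun p _ => h2 p).trans ?_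
    rw [← univ_sigma_univ, sum_sigma]
    simp only [sum_const, card_univ, Fintype.card_fun, Fintype.card_fin, nsmul_eq_mul]
    have h4 : ∀ m : Fin g, ((n ^ (m.val + 3) : ℕ) : ℝ) * (Q / (M : ℝ) ^ (m.val + 3)) ≤
        D ^ (g + 3) * Q := by
      intro m
      have h5 : ((n ^ (m.val + 3) : ℕ) : ℝ) ≤ D ^ (m.val + 3) * (M : ℝ) ^ (m.val + 3) := by
        push_cast
        rw [← mul_pow]
        exact pow_le_pow_left₀ (by positivity) hnD _
      have h6 : D ^ (m.val + 3) ≤ D ^ (g + 3) := pow_le_pow_right₀ hD1 (by omega)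
      calc ((n ^ (m.val + 3) : ℕ) : ℝ) * (Q / (M : ℝ) ^ (m.val + 3))
          ≤ (D ^ (m.val + 3) * (M : ℝ) ^ (m.val + 3)) * (Q / (M : ℝ) ^ (m.val + 3)) := by
            gcongr
        _ = D ^ (m.val + 3) * Q := by field_simp
        _ ≤ D ^ (g + 3) * Q := by gcongr
    refine (sum_le_sum fun m _ => h4 m).trans ?_
    rw [sum_const, card_univ, Fintype.card_fin, nsmul_eq_mul]
    exact le_of_eq (by ring)
  -- the number of functions with many short cycles
  have hA : ((univ.filter fun f : Sym2 (Fin n) → Fin M => k * s ≤ (X g f).card).card : ℝ) *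
      (k * s) ≤ g * D ^ (g + 3) * Q := by
    refine le_trans ?_ hX
    calc ((univ.filter fun f : Sym2 (Fin n) → Fin M => k * s ≤ (X g f).card).card : ℝ) * (k * s)
        = ∑ f ∈ (univ.filter fun f : Sym2 (Fin n) → Fin M => k * s ≤ (X g f).card),
            ((k : ℝ) * s) := by rw [sum_const, nsmul_eq_mul]
      _ ≤ ∑ f ∈ (univ.filter fun f : Sym2 (Fin n) → Fin M => k * s ≤ (X g f).card),
            ((X g f).card : ℝ) := by
          refine sum_le_sum fun f hf => ?_
          have := (mem_filter.mp hf).2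
          exact_mod_cast this
      _ ≤ ∑ f : Sym2 (Fin n) → Fin M, ((X g f).card : ℝ) :=
          sum_le_sum_of_subset_of_nonneg (filter_subset _ _) fun _ _ _ => by positivity
  have hsk : 4 * (g * D ^ (g + 3)) < (k : ℝ) * s := by
    refine hM0.trans_le ?_
    have h0 : (M0 : ℝ) ≤ M := by exact_mod_cast (by omega : M0 ≤ M)
    have h1 : (M : ℝ) ≤ s := by rw [← hsM]; nlinarith
    have h2 : (s : ℝ) ≤ k * s := by
      have : (0 : ℝ) ≤ s := by positivity
      nlinarith
    linarith
  have hA' : ((univ.filter fun f : Sym2 (Fin n) → Fin M => k * s ≤ (X g f).card).card : ℝ) <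
      Q / 4 := by
    by_contra h
    push Not at h
    have h1 : Q / 4 * (k * s) ≤ g * D ^ (g + 3) * Q :=
      (mul_le_mul_of_nonneg_right h (by positivity)).trans hA
    nlinarith
  -- independent sets
  have hB : ∀ S : Finset (Fin n), S.card = s →
      ((univ.filter fun f : Sym2 (Fin n) → Fin M => ∀ e ∈ pairs S, f e ∈ ({0}ᶜ : Finset (Fin M))).card : ℝ)
        ≤ Real.exp (-(4 * k * s)) * Q := by
    intro S hS
    have h1 := count (M := M) (pairs S) ({0}ᶜ : Finset (Fin M))
    have hc : (pairs S).card = s.choose 2 := by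
      unfold pairs
      rw [Sym2.card_image_offDiag, hS]
    have hc2 : (({0}ᶜ : Finset (Fin M)).card : ℝ) = M - 1 := by
      rw [card_compl, card_singleton, Fintype.card_fin, Nat.cast_sub (by omega)]
      simp
    rw [hc, hc2] at h1
    have h2 : ((univ.filter fun f : Sym2 (Fin n) → Fin M =>
        ∀ e ∈ pairs S, f e ∈ ({0}ᶜ : Finset (Fin M))).card : ℝ) =
        (1 - 1 / (M : ℝ)) ^ (s.choose 2) * Q := by
      have h3 : (M : ℝ) ^ (s.choose 2) ≠ 0 := by positivity
      have h4 : (1 - 1 / (M : ℝ)) ^ (s.choose 2) * (M : ℝ) ^ (s.choose 2) =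
          ((M : ℝ) - 1) ^ (s.choose 2) := by
        rw [← mul_pow]
        congr 1
        field_simp
      apply mul_right_cancel₀ h3
      rw [h1]
      calc ((M : ℝ) - 1) ^ (s.choose 2) * (M : ℝ) ^ Fintype.card (Sym2 (Fin n))
          = ((1 - 1 / (M : ℝ)) ^ (s.choose 2) * (M : ℝ) ^ (s.choose 2)) * Q := by rw [h4]
        _ = _ := by ring
    rw [h2]
    gcongr
    have h5 : (1 - 1 / (M : ℝ)) ≤ Real.exp (-(1 / (M : ℝ))) := by
      have := Real.add_one_le_exp (-(1 / (M : ℝ)))
      linarith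
    have h6 : 0 ≤ 1 - 1 / (M : ℝ) := by
      rw [sub_nonneg, div_le_one hMpos]
      exact hM1
    refine (pow_le_pow_left₀ h6 h5 _).trans ?_
    rw [← Real.exp_nat_mul]
    apply Real.exp_le_exp.mpr
    have h7 : ((s.choose 2 : ℕ) : ℝ) = s * (s - 1) / 2 := by
      rw [Nat.cast_choose_two]
    rw [h7]
    have h8 : ((s : ℝ) - 1) = 8 * k * M := by rw [← hsM]; ring
    rw [h8]
    apply le_of_eq
    field_simp
    ring
  have hC : ((univ.filter fun f : Sym2 (Fin n) → Fin M => ∃ S : Finset (Fin n), S.card = s ∧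
      ∀ e ∈ pairs S, f e ≠ 0).card : ℝ) ≤ 2 ^ n * (Real.exp (-(4 * k * s)) * Q) := by
    have h1 : (univ.filter fun f : Sym2 (Fin n) → Fin M => ∃ S : Finset (Fin n), S.card = s ∧
      ∀ e ∈ pairs S, f e ≠ 0) ⊆ (univ.filter fun S : Finset (Fin n) => S.card = s).biUnion
        fun S => univ.filter fun f : Sym2 (Fin n) → Fin M =>
          ∀ e ∈ pairs S, f e ∈ ({0}ᶜ : Finset (Fin M)) := by
      intro f hf
      obtain ⟨S, hS, h⟩ := (mem_filter.mp hf).2
      rw [mem_biUnion]
      refine ⟨S, by simp [hS], ?_⟩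
      simp only [mem_filter, mem_univ, true_and, mem_compl, mem_singleton]
      exact h
    have h2 := (card_le_card h1).trans card_biUnion_le
    have h3 : ((univ.filter fun f : Sym2 (Fin n) → Fin M => ∃ S : Finset (Fin n), S.card = s ∧
      ∀ e ∈ pairs S, f e ≠ 0).card : ℝ) ≤ ∑ S ∈ (univ.filter fun S : Finset (Fin n) => S.card = s),
        ((univ.filter fun f : Sym2 (Fin n) → Fin M =>
          ∀ e ∈ pairs S, f e ∈ ({0}ᶜ : Finset (Fin M))).card : ℝ) := by
      exact_mod_cast h2
    refine h3.trans ((sum_le_sum fun S hS => hB S (mem_filter.mp hS).2).trans ?_)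
    rw [sum_const, nsmul_eq_mul]
    gcongr
    have h4 : (univ.filter fun S : Finset (Fin n) => S.card = s).card ≤ 2 ^ n := by
      refine (card_le_univ _).trans ?_
      rw [Fintype.card_finset, Fintype.card_fin]
    exact_mod_cast h4
  have hC' : 2 ^ n * (Real.exp (-(4 * k * s)) * Q) < Q / 2 := by
    have h1 : (2 : ℝ) ^ n ≤ Real.exp n := by
      have := Real.exp_one_gt_d9
      rw [← Real.exp_one_pow]
      exact pow_le_pow_left₀ (by norm_num) (by linarith) _
    have h2 : Real.exp n * Real.exp (-(4 * k * s)) = Real.exp (-(2 * k * s)) := by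
      rw [← Real.exp_add, hnR]
      congr 1
      ring
    have h3 : Real.exp (-(2 * k * s)) < 1 / 2 := by
      have h4 : (1 : ℝ) ≤ 2 * k * s := by
        have : (1 : ℝ) ≤ s := by exact_mod_cast (by omega : 1 ≤ s)
        nlinarith
      have h5 : Real.exp (-(2 * k * s)) ≤ Real.exp (-1) := Real.exp_le_exp.mpr (by linarith)
      have h6 : Real.exp (-1) < 1 / 2 := by
        rw [Real.exp_neg, inv_lt_comm₀ (Real.exp_pos _) (by norm_num)]
        have := Real.exp_one_gt_d9
        norm_num
        linarith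
      linarith
    have h4 : (2 : ℝ) ^ n * Real.exp (-(4 * k * s)) < 1 / 2 := by
      refine lt_of_le_of_lt ?_ h3
      rw [← h2]
      gcongr
    nlinarith
  -- conclusion
  have hcover : (univ : Finset (Sym2 (Fin n) → Fin M)) ⊆
      ((univ.filter fun f : Sym2 (Fin n) → Fin M => k * s ≤ (X g f).card) ∪
      (univ.filter fun f : Sym2 (Fin n) → Fin M =>
        4 * D * n < ((univ.filter fun e => f e = 0).card : ℝ))) ∪
      (univ.filter fun f : Sym2 (Fin n) → Fin M => ∃ S : Finset (Fin n), S.card = s ∧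
        ∀ e ∈ pairs S, f e ≠ 0) := by
    intro f _
    rw [mem_union, mem_union]
    rcases hall f with h | h | h
    · left; left; simp [h]
    · left; right
      rw [mem_filter]
      exact ⟨mem_univ _, h⟩
    · right; simpa using h
  have h1 := (card_le_card hcover).trans ((card_union_le _ _).trans
    (Nat.add_le_add_right (card_union_le _ _) _))
  have h2 : ((univ : Finset (Sym2 (Fin n) → Fin M)).card : ℝ) = Q := by
    rw [card_univ, Fintype.card_fun, Fintype.card_fin]
    push_cast
    rfl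
  have h3 : Q ≤ ((univ.filter fun f : Sym2 (Fin n) → Fin M => k * s ≤ (X g f).card).card : ℝ) +
      ((univ.filter fun f : Sym2 (Fin n) → Fin M =>
        4 * D * n < ((univ.filter fun e => f e = 0).card : ℝ)).card : ℝ) +
      ((univ.filter fun f : Sym2 (Fin n) → Fin M => ∃ S : Finset (Fin n), S.card = s ∧
        ∀ e ∈ pairs S, f e ≠ 0).card : ℝ) := by
    rw [← h2]
    exact_mod_cast h1
  linarith

end Pool.Agent.TH912.LS
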