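import Pool.Agent.TH912.LS.Base

set_option autoImplicit false

/-! Graphs of bounded degree without short odd closed walks and without large independent sets. -/

namespace Pool.Agent.TH912.LS

open Finset Pool.Agent.W179.Erdos

/-- a closed walk of odd length contains a cycle which is not longer -/
theorem odd_cycle {V : Type} (G : SimpleGraph V) : ∀ (ℓ : ℕ) (f : ℕ → V), ℓ % 2 = 1 →
    (∀ i < ℓ, G.Adj (f i) (f (i + 1))) → f ℓ = f 0 → ∃ l h, l ≤ ℓ ∧ FCyc G l h := by
  intro ℓ
  induction ℓ using Nat.strong_induction_on with
  | _ ℓ ih =>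
    intro f hodd hadj hclose
    by_cases hinj : ∀ i < ℓ, ∀ j < ℓ, f i = f j → i = j
    · have h1 : ℓ ≠ 1 := by
        rintro rfl
        have := hadj 0 (by omega)
        rw [zero_add, hclose] at this
        exact G.loopless.irrefl _ this
      refine ⟨ℓ, f, le_rfl, ⟨by omega, hinj, fun i hi => hadj i (by omega), ?_⟩⟩
      have := hadj (ℓ - 1) (by omega)
      rwa [Nat.sub_add_cancel (by omega), hclose] at this
    · push Not at hinj
      obtain ⟨i, hi, j, hj, hij, hne⟩ := hinj
      wlog hlt : i < j generalizing i j with H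
      · exact H j hj i hi hij.symm hne.symm (by omega)
      obtain ⟨m, rfl⟩ : ∃ m, j = i + m := ⟨j - i, by omega⟩
      by_cases hm : m % 2 = 1
      · obtain ⟨l, h, hl, hc⟩ := ih m (by omega) (fun x => f (i + x)) hm
          (fun x hx => hadj (i + x) (by omega)) (by simpa using hij.symm)
        exact ⟨l, h, by omega, hc⟩
      · obtain ⟨l, h, hl, hc⟩ := ih (ℓ - m) (by omega)
          (fun x => if x ≤ i then f x else f (x + m)) (by omega) (by
            intro x hx
            by_cases h1 : x + 1 ≤ i
            · rw [if_pos (by omega), if_pos h1]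
              exact hadj x (by omega)
            · by_cases h2 : x ≤ i
              · have h3 : x = i := by omega
                subst h3
                rw [if_pos le_rfl, if_neg (by omega), hij]
                have := hadj (x + m) (by omega)
                rwa [show x + m + 1 = x + 1 + m by ring] at this
              · rw [if_neg h2, if_neg h1]
                have := hadj (x + m) (by omega)
                rwa [show x + m + 1 = x + 1 + m by ring] at this) (by
            show (if ℓ - m ≤ i then f (ℓ - m) else f (ℓ - m + m)) = if 0 ≤ i then f 0 else f (0 + m)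
            rw [if_neg (by omega), if_pos (Nat.zero_le _), Nat.sub_add_cancel (by omega), hclose])
        exact ⟨l, h, by omega, hc⟩

theorem noOdd_of_cyc {V : Type} {G : SimpleGraph V} {L : ℕ}
    (h : ∀ l f, FCyc G l f → L < l) : NoOdd G L := by
  rintro u ⟨w, hw, hp⟩
  obtain ⟨l, f, hl, hc⟩ := odd_cycle G w.length (fun i => w.getVert i)
    (by rw [Nat.mod_two_of_bodd, hp]; rfl) (fun i hi => w.adj_getVert_succ hi)
    (by simp)
  have := h l f hc
  omega

open Classical in
/-- the base graphs -/
theorem base (k g : ℕ) (hk : 1 ≤ k) : ∃ (U : Type) (_ : Fintype U) (G : SimpleGraph U),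
    g ≤ 2 * Fintype.card U ∧
    (Fintype.card U : ℝ) ≤ (2 * k * (8 * k + 1) : ℝ) ^ (2 * g + 5) ∧
    (∀ u, (G.neighborSet u).ncard ≤ 32 * (2 * k * (8 * k + 1))) ∧
    NoOdd G g ∧
    ∀ A : Set U, G.IsIndepSet A → k * A.ncard ≤ 2 * Fintype.card U := by
  obtain ⟨n, s, M, _, f, hs, hn, hgs, hnb, hX, hE, hI⟩ := main_count' k g hk
  let G : SimpleGraph (Fin n) :=
    { Adj := fun u v => u ≠ v ∧ f s(u, v) = 0
      symm := ⟨fun u v h => ⟨h.1.symm, by rw [Sym2.eq_swap]; exact h.2⟩⟩
      loopless := ⟨fun u h => h.1 rfl⟩ }
  set D : ℕ := 2 * k * (8 * k + 1) with hD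
  -- vertices of large degree
  let Hi : Finset (Fin n) := univ.filter fun v => 32 * D < G.degree v
  have hHi : 2 * Hi.card ≤ k * s := by
    have h1 : ∑ v, G.degree v = 2 * G.edgeFinset.card := G.sum_degrees_eq_twice_card_edges
    have h2 : G.edgeFinset.card ≤ (univ.filter fun e : Sym2 (Fin n) => f e = 0).card := by
      apply card_le_card
      intro e he
      rw [SimpleGraph.mem_edgeFinset] at he
      induction e using Sym2.ind with
      | _ a b =>
        have : G.Adj a b := he
        exact mem_filter.mpr ⟨mem_univ _, this.2⟩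
    have h3 : Hi.card * (32 * D) ≤ ∑ v, G.degree v := by
      calc Hi.card * (32 * D) = ∑ v ∈ Hi, 32 * D := by rw [sum_const, smul_eq_mul]
        _ ≤ ∑ v ∈ Hi, G.degree v := sum_le_sum fun v hv => ((mem_filter.mp hv).2).le
        _ ≤ ∑ v, G.degree v :=
            sum_le_sum_of_subset_of_nonneg (filter_subset _ _) fun _ _ _ => Nat.zero_le _
    have h4 : (univ.filter fun e : Sym2 (Fin n) => f e = 0).card ≤ 4 * D * n := by
      have : ((univ.filter fun e : Sym2 (Fin n) => f e = 0).card : ℝ) ≤ ((4 * D * n : ℕ) : ℝ) := by
        push_cast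
        rw [hD]
        push_cast
        exact hE
      exact_mod_cast this
    have hDpos : 0 < D := by rw [hD]; positivity
    have h5 : Hi.card * (32 * D) ≤ 2 * (4 * D * n) := by omega
    have h6 : D * (4 * Hi.card) ≤ D * n := by nlinarith
    have h7 := Nat.le_of_mul_le_mul_left h6 hDpos
    have h8 : n = 2 * (k * s) := by rw [hn]; ring
    omega
  let B : Finset (Fin n) := (X g f).image fun p => p.2 0
  have hB : B.card < k * s := lt_of_le_of_lt card_image_le hX
  let U : Finset (Fin n) := (B ∪ Hi)ᶜ
  have hU : k * s ≤ 2 * U.card := by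
    show k * s ≤ 2 * ((B ∪ Hi)ᶜ).card
    rw [card_compl, Fintype.card_fin]
    have h1 := card_union_le B Hi
    have : n = k * s + k * s := by rw [hn]; ring
    omega
  have hcard : Fintype.card {v // v ∈ U} = U.card := Fintype.card_coe U
  refine ⟨{v // v ∈ U}, inferInstance, G.induce (fun v => v ∈ U), ?_, ?_, ?_, ?_, ?_⟩
  · rw [hcard]
    nlinarith
  · rw [hcard]
    refine le_trans ?_ hnb
    have h1 := card_le_univ U
    rw [Fintype.card_fin] at h1
    exact_mod_cast h1
  · intro u
    have hu : (u : Fin n) ∉ Hi := by
      have := u.2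
      simp only [U, mem_compl, mem_union, not_or] at this
      exact this.2
    have hdeg : G.degree u ≤ 32 * D := by
      by_contra h
      push Not at h
      exact hu (mem_filter.mpr ⟨mem_univ _, h⟩)
    refine le_trans ?_ hdeg
    rw [← SimpleGraph.card_neighborFinset_eq_degree, ← Set.ncard_coe_finset,
      SimpleGraph.coe_neighborFinset]
    refine Set.ncard_le_ncard_of_injOn (fun x => (x : Fin n)) ?_ ?_ (Set.toFinite _)
    · intro x hx
      exact hx
    · intro x _ y _ hxy
      exact Subtype.ext hxy
  · apply noOdd_of_cyc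
    intro l φ h
    by_contra hl
    push Not at hl
    have h3 := h.three
    obtain ⟨m, rfl⟩ : ∃ m, l = m + 3 := ⟨l - 3, by omega⟩
    have hm : m < g := by omega
    let v : Fin (m + 3) → Fin n := fun t => (φ t.val).val
    have hv : Function.Injective v := by
      intro a b hab
      have := h.inj a.val a.isLt b.val b.isLt (Subtype.ext hab)
      exact Fin.ext this
    have hz : ∀ e ∈ cedges v, f e ∈ ({0} : Finset (Fin M)) := by
      intro e he
      unfold cedges at he
      obtain ⟨t, -, rfl⟩ := mem_image.mp he
      rw [mem_singleton]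
      by_cases ht : t.val + 1 < m + 3
      · have h5 : (t + 1 : Fin (m + 3)).val = t.val + 1 := by
          rw [Fin.val_add, Fin.val_one, Nat.mod_eq_of_lt ht]
        have h4 := (h.adj t.val ht)
        have h6 : v (t + 1) = (φ (t.val + 1)).val := by
          show (φ (t + 1 : Fin (m + 3)).val).val = _
          rw [h5]
        rw [h6]
        exact h4.2
      · have h7 : t.val = m + 3 - 1 := by
          have := t.isLt
          omega
        have h5 : (t + 1 : Fin (m + 3)).val = 0 := by
          rw [Fin.val_add, Fin.val_one, h7]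
          have : m + 3 - 1 + 1 = m + 3 := by omega
          rw [this, Nat.mod_self]
        have h4 := h.close
        have h6 : v (t + 1) = (φ 0).val := by
          show (φ (t + 1 : Fin (m + 3)).val).val = _
          rw [h5]
        have h8 : v t = (φ (m + 3 - 1)).val := by
          show (φ t.val).val = _
          rw [h7]
        rw [h6, h8]
        exact h4.2
    have hmem : (⟨⟨m, hm⟩, v⟩ : Σ m : Fin g, (Fin (m.val + 3) → Fin n)) ∈ X g f := by
      unfold X
      rw [mem_filter]
      exact ⟨mem_univ _, hv, hz⟩
    have hB0 : v 0 ∈ B := mem_image_of_mem (fun p : Σ m : Fin g, (Fin (m.val + 3) → Fin n) =>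
      p.2 0) hmem
    have hU0 := (φ 0).2
    simp only [U, mem_compl, mem_union, not_or] at hU0
    exact hU0.1 hB0
  · intro A hA
    by_contra hcon
    push Not at hcon
    have hsA : s ≤ A.ncard := by
      by_contra h
      push Not at h
      rw [hcard] at hcon
      have h1 : k * A.ncard < k * s := by
        exact Nat.mul_lt_mul_of_pos_left h (by omega)
      omega
    obtain ⟨T, hTA, hT⟩ := Set.exists_subset_card_eq hsA
    let S : Finset (Fin n) := (T.toFinset).map (Function.Embedding.subtype _)
    have hS : S.card = s := by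
      rw [card_map, ← Set.ncard_eq_toFinset_card', hT]
    obtain ⟨e, he, h0⟩ := hI S hS
    obtain ⟨a, ha, b, hb, hab, rfl⟩ := pairs_sub S e he
    obtain ⟨a', ha', rfl⟩ := mem_map.mp ha
    obtain ⟨b', hb', rfl⟩ := mem_map.mp hb
    rw [Set.mem_toFinset] at ha' hb'
    have hadj : (G.induce (fun v => v ∈ U)).Adj a' b' := ⟨hab, h0⟩
    exact hA (hTA ha') (hTA hb') (fun h => hab (by rw [h])) hadj

end Pool.Agent.TH912.LS
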