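import Mathlib

set_option autoImplicit false

/-! Local search with auxiliary states: definitions. -/

namespace Pool.Agent.TH912.LS

/-- The vertices at distance at most `r` from `v`: those reached from `v` by a walk of length at
most `r`. -/
def ball {V : Type} (G : SimpleGraph V) (v : V) (r : ℕ) : Set V :=
  {u | ∃ w : G.Walk v u, w.length ≤ r}

/-- The radius-`r` view of `v` in the graph `G` with states `σ` is isomorphic to the radius-`r` view
of `v'` in the graph `G'` with states `σ'`: there is a bijection between the two balls that maps
root to root, and preserves adjacency, non-adjacency and states. -/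
def SameView (r : ℕ) {S V V' : Type} (G : SimpleGraph V) (σ : V → S) (v : V)
    (G' : SimpleGraph V') (σ' : V' → S) (v' : V') : Prop :=
  ∃ e : ball G v r ≃ ball G' v' r,
    (∀ x : ball G v r, (x : V) = v ↔ (e x : V') = v') ∧
    (∀ x y : ball G v r, G.Adj (x : V) (y : V) ↔ G'.Adj (e x : V') (e y : V')) ∧
    ∀ x : ball G v r, σ (x : V) = σ' (e x : V')

/-- A local cost of radius `r`: every vertex pays a real cost which depends only on the isomorphism
type of its radius-`r` view. -/
structure LocalCost (S : Type) (r : ℕ) where
  cost : {V : Type} → SimpleGraph V → (V → S) → V → ℝ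
  invariant : ∀ {V V' : Type} (G : SimpleGraph V) (σ : V → S) (v : V)
    (G' : SimpleGraph V') (σ' : V' → S) (v' : V'),
    SameView r G σ v G' σ' v' → cost G σ v = cost G' σ' v'

/-- The potential: the sum of the local costs of all vertices. -/
noncomputable def LocalCost.total {S : Type} {r : ℕ} (F : LocalCost S r) {V : Type} [Fintype V]
    (G : SimpleGraph V) (σ : V → S) : ℝ :=
  ∑ v, F.cost G σ v

/-- The vertices selected by the states: those whose state lies in `I`. -/
def sel {S V : Type} (I : Set S) (σ : V → S) : Set V := {v | σ v ∈ I}

/-- An improving move: from `σ` to a `σ'` that again selects a vertex cover, that differs from `σ`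
only inside the union of at most `m` balls of radius `t`, and that has smaller potential. -/
def Step {S V : Type} [Fintype V] {r : ℕ} (F : LocalCost S r) (I : Set S) (m t : ℕ)
    (G : SimpleGraph V) (σ σ' : V → S) : Prop :=
  G.IsVertexCover (sel I σ') ∧
  (∃ T : Finset V, T.card ≤ m ∧ ∀ v, σ' v ≠ σ v → ∃ c ∈ T, v ∈ ball G c t) ∧
  F.total G σ' < F.total G σ

/-- `σ` is a local optimum: it selects a vertex cover and has no improving move. -/
def LocalOpt {S V : Type} [Fintype V] {r : ℕ} (F : LocalCost S r) (I : Set S) (m t : ℕ)
    (G : SimpleGraph V) (σ : V → S) : Prop :=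
  G.IsVertexCover (sel I σ) ∧ ∀ σ' : V → S, ¬ Step F I m t G σ σ'

/-- `σ` is a function of the radius-`q` view of the graph (without states): two vertices with
isomorphic views have the same state. -/
def Anonymous {S V : Type} (q : ℕ) (G : SimpleGraph V) (σ : V → S) : Prop :=
  ∀ v v' : V, SameView q G (fun _ => ()) v G (fun _ => ()) v' → σ v = σ v'

end Pool.Agent.TH912.LS
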