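import Pool.Agent.TH912.LS.Split
import Pool.Agent.TH912.LS.Base2

set_option autoImplicit false

/-! The lower bound. -/

namespace Pool.Agent.TH912.LS

/-- the automorphism of the double cover that exchanges the two sheets -/
def flip {U : Type} (G : SimpleGraph U) : dc G ≃g dc G where
  toFun x := (x.1, !x.2)
  invFun x := (x.1, !x.2)
  left_inv x := by simp
  right_inv x := by simp
  map_rel_iff' := by
    intro x y
    show (G.Adj x.1 y.1 ∧ (!x.2) ≠ (!y.2)) ↔ (G.Adj x.1 y.1 ∧ x.2 ≠ y.2)
    cases x.2 <;> cases y.2 <;> simp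

theorem log_bound {k g n : ℕ} (hk : 1 ≤ k) (hn : 1 ≤ n)
    (h : (n : ℝ) ≤ (2 * ((2 * k : ℕ) : ℝ) * (8 * ((2 * k : ℕ) : ℝ) + 1)) ^ (2 * g + 5)) :
    Real.log (2 * n) ≤ (14 * g + 36) * Real.log (2 * k) := by
  have hk' : (1 : ℝ) ≤ k := by exact_mod_cast hk
  have hn' : (1 : ℝ) ≤ n := by exact_mod_cast hn
  have h1 : (2 * ((2 * k : ℕ) : ℝ) * (8 * ((2 * k : ℕ) : ℝ) + 1)) ≤ (2 * (k : ℝ)) ^ 7 := by
    push_cast
    have h2 : (1 : ℝ) ≤ (k : ℝ) ^ 5 := one_le_pow₀ hk'
    have h3 : (k : ℝ) ^ 2 ≤ (k : ℝ) ^ 7 := by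
      have : (k : ℝ) ^ 7 = (k : ℝ) ^ 2 * (k : ℝ) ^ 5 := by ring
      rw [this]
      nlinarith [sq_nonneg (k : ℝ)]
    have h4 : (k : ℝ) ≤ (k : ℝ) ^ 2 := by nlinarith
    calc 2 * (2 * (k : ℝ)) * (8 * (2 * k) + 1) = 64 * (k : ℝ) ^ 2 + 4 * k := by ring
      _ ≤ 128 * (k : ℝ) ^ 7 := by nlinarith
      _ = (2 * (k : ℝ)) ^ 7 := by ring
  have h2 : (n : ℝ) ≤ (2 * (k : ℝ)) ^ (7 * (2 * g + 5)) := by
    refine h.trans ?_
    rw [pow_mul]
    exact pow_le_pow_left₀ (by positivity) h1 _
  have h3 : 2 * (n : ℝ) ≤ (2 * (k : ℝ)) ^ (7 * (2 * g + 5) + 1) := by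
    rw [pow_succ, mul_comm]
    have : (2 : ℝ) ≤ 2 * k := by linarith
    gcongr
  have h4 := Real.log_le_log (by positivity) h3
  rw [Real.log_pow] at h4
  refine h4.trans (le_of_eq ?_)
  push_cast
  ring

theorem lower (k : ℕ) (hk : 1 ≤ k) (N : ℕ) : ∃ (V : Type) (_ : Fintype V) (G : SimpleGraph V),
    N ≤ Fintype.card V ∧ G.IsBipartite ∧ (∀ v, (G.neighborSet v).ncard ≤ 2176 * k ^ 2) ∧
    (∃ K : Set V, G.IsVertexCover K ∧ 2 * K.ncard = Fintype.card V) ∧
    ∀ (S : Type) [Finite S] (I : Set S) (r m t : ℕ) (F : LocalCost S r) (start : V → S),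
      (m * (t + r + 1) : ℝ) * (64 * Real.log (2 * k)) ≤ Real.log (Fintype.card V) →
      G.IsVertexCover (sel I start) → (∀ (φ : G ≃g G) (v : V), start (φ v) = start v) →
      ∃ σ : V → S, Relation.ReflTransGen (Step F I m t G) start σ ∧ LocalOpt F I m t G σ ∧
        (1 - 1 / (k : ℝ)) * Fintype.card V ≤ (sel I σ).ncard := by
  classical
  obtain ⟨U, _, G, hg, hcard, hdeg, hodd, hind⟩ := base (2 * k) (max N 1) (by omega)
  have hU : 1 ≤ Fintype.card U := by omega
  refine ⟨U × Bool, inferInstance, dc G, ?_, ?_, ?_, ?_, ?_⟩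
  · rw [Fintype.card_prod, Fintype.card_bool]
    omega
  · refine ⟨SimpleGraph.Coloring.mk (fun x => if x.2 then (0 : Fin 2) else 1) ?_⟩
    rintro ⟨u, a⟩ ⟨v, b⟩ ⟨_, hab⟩
    revert hab
    cases a <;> cases b <;> simp
  · rintro ⟨u, a⟩
    refine le_trans (b := (G.neighborSet u).ncard) ?_ ((hdeg u).trans ?_)
    · refine Set.ncard_le_ncard_of_injOn Prod.fst ?_ ?_ (Set.toFinite _)
      · rintro ⟨v, b⟩ hv
        exact hv.1
      · rintro ⟨v, b⟩ hv ⟨w, c⟩ hw hvw
        have h1 : a ≠ b := hv.2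
        have h2 : a ≠ c := hw.2
        have h3 : v = w := hvw
        subst h3
        have h4 : b = c := by
          revert h1 h2
          cases a <;> cases b <;> cases c <;> simp
        rw [h4]
    · nlinarith
  · refine ⟨{x | x.2 = true}, ?_, ?_⟩
    · rintro ⟨u, a⟩ ⟨v, b⟩ ⟨_, hab⟩
      show a = true ∨ b = true
      revert hab
      cases a <;> cases b <;> simp
    · have h1 : ({x : U × Bool | x.2 = true}).ncard = Fintype.card U := by
        have h2 : {x : U × Bool | x.2 = true} = (fun u : U => (u, true)) '' Set.univ := by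
          ext ⟨u, a⟩
          simp only [Set.mem_setOf_eq, Set.image_univ, Set.mem_range, Prod.mk.injEq]
          constructor
          · rintro rfl; exact ⟨u, rfl, rfl⟩
          · rintro ⟨_, _, h⟩; exact h.symm
        rw [h2, Set.ncard_image_of_injective _ (fun a b h => (Prod.mk.inj h).1), Set.ncard_univ,
          Nat.card_eq_fintype_card]
      rw [h1, Fintype.card_prod, Fintype.card_bool]
      ring
  · intro S _ I r m t F start hbd hstart hsym
    -- the start is a lift
    let τ : U → S := fun u => start (u, true)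
    have hup : start = up τ := by
      funext x
      obtain ⟨u, a⟩ := x
      cases a with
      | true => rfl
      | false => exact hsym (flip G) (u, true)
    have hτ : G.IsVertexCover (sel I τ) := by
      intro u v huv
      have h1 : (dc G).Adj (u, true) (v, false) := ⟨huv, by simp⟩
      have h2 := hstart h1
      rw [hup] at h2
      exact h2
    have hgg : m * (2 * t + 2 * r + 1) ≤ max N 1 := by
      rcases Nat.eq_zero_or_pos m with rfl | hm
      · simp
      · have h1 := log_bound (g := max N 1) hk hU hcard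
        rw [Fintype.card_prod, Fintype.card_bool] at hbd
        have h2 : Real.log ((Fintype.card U * 2 : ℕ) : ℝ) =
            Real.log (2 * (Fintype.card U : ℝ)) := by
          congr 1; push_cast; ring
        rw [h2] at hbd
        have hk' : (1 : ℝ) ≤ k := by exact_mod_cast hk
        have h3 : 0 < Real.log (2 * (k : ℝ)) := Real.log_pos (by linarith)
        have h4 : (m * (t + r + 1) : ℝ) * 64 ≤ 14 * (max N 1 : ℕ) + 36 := by
          have h5 : ((m * (t + r + 1) : ℝ) * 64) * Real.log (2 * k) ≤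
              (14 * (max N 1 : ℕ) + 36) * Real.log (2 * k) := by
            calc ((m * (t + r + 1) : ℝ) * 64) * Real.log (2 * k) =
                (m * (t + r + 1) : ℝ) * (64 * Real.log (2 * k)) := by ring
              _ ≤ _ := hbd.trans h1
          exact le_of_mul_le_mul_right h5 h3
        have h5 : m * (t + r + 1) * 64 ≤ 14 * (max N 1) + 36 := by exact_mod_cast h4
        have h6 : 1 ≤ m * (t + r + 1) := Nat.mul_pos hm (by omega)
        have h7 : m * (2 * t + 2 * r + 1) ≤ 2 * (m * (t + r + 1)) := by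
          nlinarith
        omega
    obtain ⟨τ', h1, h2, h3⟩ := main (hodd.mono hgg) F I τ hτ
    refine ⟨up τ', by rw [hup]; exact h2, ⟨?_, h3⟩, ?_⟩
    · intro x y hxy
      exact h1 hxy.1
    · have h4 : G.IsIndepSet (sel I τ')ᶜ := by
        rw [SimpleGraph.isIndepSet_compl_iff_isVertexCover]
        exact h1
      have h5 := hind _ h4
      have h6 : (sel I (up τ')).ncard = 2 * (sel I τ').ncard := by
        have h7 : sel I (up τ') = (sel I τ') ×ˢ (Set.univ : Set Bool) := by
          ext ⟨u, a⟩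
          simp [sel, up]
        rw [h7, Set.ncard_prod, Set.ncard_univ]
        simp [mul_comm]
      have h7 : (sel I τ').ncard + ((sel I τ')ᶜ).ncard = Fintype.card U := by
        rw [Set.ncard_add_ncard_compl, Nat.card_eq_fintype_card]
      rw [h6, Fintype.card_prod, Fintype.card_bool]
      have hk' : (1 : ℝ) ≤ k := by exact_mod_cast hk
      have h8 : (k : ℝ) * ((sel I τ')ᶜ).ncard ≤ Fintype.card U := by
        have : k * ((sel I τ')ᶜ).ncard ≤ Fintype.card U := by nlinarith
        exact_mod_cast this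
      have h9 : (((sel I τ')ᶜ).ncard : ℝ) ≤ Fintype.card U / k := by
        rw [le_div_iff₀ (by linarith)]
        linarith
      have h10 : ((sel I τ').ncard : ℝ) + ((sel I τ')ᶜ).ncard = Fintype.card U := by
        exact_mod_cast h7
      push_cast
      have h11 : (1 - 1 / (k : ℝ)) * (Fintype.card U * 2) =
          2 * (Fintype.card U - Fintype.card U / k) := by ring
      rw [h11]
      linarith

end Pool.Agent.TH912.LS
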