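import Pool.Agent.TH912.LS.Lift

set_option autoImplicit false

/-! Far-apart changes are independent of each other. -/

namespace Pool.Agent.TH912.LS

open Classical

variable {V S : Type}

/-- the change restricted to `A` -/
noncomputable def onA (A : Set V) (σ σ' : V → S) : V → S := fun v => if v ∈ A then σ' v else σ v

theorem onA_mem {A : Set V} {σ σ' : V → S} {v : V} (h : v ∈ A) : onA A σ σ' v = σ' v := if_pos h

theorem onA_not {A : Set V} {σ σ' : V → S} {v : V} (h : v ∉ A) : onA A σ σ' v = σ v := if_neg h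

theorem split_cover {G : SimpleGraph V} {r : ℕ} (I : Set S) (A : Set V) (σ σ' : V → S)
    (hσ : G.IsVertexCover (sel I σ)) (hσ' : G.IsVertexCover (sel I σ'))
    (hA : ∀ x y, σ' x ≠ σ x → σ' y ≠ σ y → x ∈ A → y ∉ A → y ∉ ball G x (2 * r + 1)) :
    G.IsVertexCover (sel I (onA A σ σ')) := by
  have key : ∀ u v, G.Adj u v → u ∈ A → v ∉ A → σ' u ∈ I ∨ σ v ∈ I := by
    intro u v huv hu hv
    by_cases h1 : σ' u = σ u
    · have := hσ huv
      rw [h1]
      exact this
    · by_cases h2 : σ' v = σ v
      · have := hσ' huv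
        rw [← h2]
        exact this
      · exact absurd (ball_mono (ball_adj huv) (by omega)) (hA u v h1 h2 hu hv)
  intro u v huv
  show onA A σ σ' u ∈ I ∨ onA A σ σ' v ∈ I
  by_cases hu : u ∈ A <;> by_cases hv : v ∈ A
  · rw [onA_mem hu, onA_mem hv]; exact hσ' huv
  · rw [onA_mem hu, onA_not hv]; exact key u v huv hu hv
  · rw [onA_not hu, onA_mem hv]; exact (key v u huv.symm hv hu).symm
  · rw [onA_not hu, onA_not hv]; exact hσ huv

theorem split_cost {G : SimpleGraph V} {r : ℕ} (F : LocalCost S r) (A : Set V) (σ σ' : V → S)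
    (hA : ∀ x y, σ' x ≠ σ x → σ' y ≠ σ y → x ∈ A → y ∉ A → y ∉ ball G x (2 * r + 1)) (v : V) :
    F.cost G σ' v + F.cost G σ v = F.cost G (onA A σ σ') v + F.cost G (onA A σ' σ) v := by
  by_cases h : ∃ x ∈ ball G v r, σ' x ≠ σ x ∧ x ∈ A
  · obtain ⟨x, hx, hx1, hx2⟩ := h
    have h1 : ∀ y ∈ ball G v r, σ' y ≠ σ y → y ∈ A := by
      intro y hy hy1
      by_contra hy2
      exact hA x y hx1 hy1 hx2 hy2 (ball_mono (ball_trans (ball_symm hx) hy) (by omega))
    have h2 : F.cost G (onA A σ σ') v = F.cost G σ' v := by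
      apply cost_congr
      intro y hy
      by_cases hyA : y ∈ A
      · rw [onA_mem hyA]
      · rw [onA_not hyA]
        by_contra hne
        exact hyA (h1 y hy (Ne.symm hne))
    have h3 : F.cost G (onA A σ' σ) v = F.cost G σ v := by
      apply cost_congr
      intro y hy
      by_cases hyA : y ∈ A
      · rw [onA_mem hyA]
      · rw [onA_not hyA]
        by_contra hne
        exact hyA (h1 y hy hne)
    rw [h2, h3]
  · push Not at h
    have h2 : F.cost G (onA A σ σ') v = F.cost G σ v := by
      apply cost_congr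
      intro y hy
      by_cases hyA : y ∈ A
      · rw [onA_mem hyA]
        by_contra hne
        exact h y hy hne hyA
      · rw [onA_not hyA]
    have h3 : F.cost G (onA A σ' σ) v = F.cost G σ' v := by
      apply cost_congr
      intro y hy
      by_cases hyA : y ∈ A
      · rw [onA_mem hyA]
        by_contra hne
        exact h y hy (Ne.symm hne) hyA
      · rw [onA_not hyA]
    rw [h2, h3, add_comm]

theorem opt_of_push [Fintype V] {G : SimpleGraph V} {r d m t : ℕ} (F : LocalCost S r) (I : Set S)
    (σ : V → S) (hσ : G.IsVertexCover (sel I σ))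
    (hpush : ∀ σ' : V → S, G.IsVertexCover (sel I σ') →
      (∃ T : Finset V, T.card ≤ m ∧ ∀ v, σ' v ≠ σ v → ∃ c ∈ T, v ∈ ball G c t) →
      (∀ x y, σ' x ≠ σ x → σ' y ≠ σ y → y ∈ ball G x d) → F.total G σ ≤ F.total G σ')
    (hm : (m - 1) * (2 * t + 2 * r + 1) + 2 * t ≤ d) :
    ∀ T : Finset V, T.card ≤ m → ∀ σ' : V → S, G.IsVertexCover (sel I σ') →
      (∀ v, σ' v ≠ σ v → ∃ c ∈ T, v ∈ ball G c t) → F.total G σ ≤ F.total G σ' := by
  intro T
  induction T using Finset.strongInduction with
  | H T ih =>
    intro hT σ' hσ' hD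
    by_cases hT0 : T.Nonempty
    · obtain ⟨c0, hc0⟩ := hT0
      let K : SimpleGraph {c // c ∈ T} :=
        { Adj := fun i j => i ≠ j ∧ ∃ x y, σ' x ≠ σ x ∧ σ' y ≠ σ y ∧ x ∈ ball G i t ∧
            y ∈ ball G j t ∧ y ∈ ball G x (2 * r + 1)
          symm := ⟨by
            rintro i j ⟨hij, x, y, h1, h2, h3, h4, h5⟩
            exact ⟨hij.symm, y, x, h2, h1, h4, h3, ball_symm h5⟩⟩
          loopless := ⟨fun i h => h.1 rfl⟩ }
      have hK : ∀ i j (w : K.Walk i j), (j : V) ∈ ball G i (w.length * (2 * t + 2 * r + 1)) := by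
        intro i j w
        induction w with
        | nil => exact ball_self _ _ _
        | @cons i z j h w ih =>
          obtain ⟨_, x, y, h1, h2, h3, h4, h5⟩ := h
          have h6 : (z : V) ∈ ball G i (2 * t + 2 * r + 1) :=
            ball_mono (ball_trans (ball_trans h3 h5) (ball_symm h4)) (by omega)
          refine ball_mono (ball_trans h6 ih) ?_
          rw [SimpleGraph.Walk.length_cons]
          ring_nf
          omega
      let J : Finset V := T.filter fun c => ∃ h : c ∈ T, K.Reachable ⟨c0, hc0⟩ ⟨c, h⟩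
      have hJ0 : c0 ∈ J := by
        simp only [J, Finset.mem_filter]
        exact ⟨hc0, hc0, SimpleGraph.Reachable.refl _⟩
      by_cases hJ : J = T
      · apply hpush σ' hσ' ⟨T, hT, hD⟩
        intro x y hx hy
        obtain ⟨c, hc, hcx⟩ := hD x hx
        obtain ⟨c', hc', hcy⟩ := hD y hy
        have h1 : K.Reachable ⟨c0, hc0⟩ ⟨c, hc⟩ := by
          have := hJ.symm ▸ hc
          simp only [J, Finset.mem_filter] at this
          exact this.2.2
        have h2 : K.Reachable ⟨c0, hc0⟩ ⟨c', hc'⟩ := by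
          have := hJ.symm ▸ hc'
          simp only [J, Finset.mem_filter] at this
          exact this.2.2
        obtain ⟨p, hp⟩ := (h1.symm.trans h2).exists_isPath
        have h3 := hp.length_lt
        have h4 : p.length ≤ m - 1 := by
          rw [Fintype.card_coe] at h3
          omega
        have h5 := hK _ _ p
        have h6 : y ∈ ball G x (t + p.length * (2 * t + 2 * r + 1) + t) :=
          ball_trans (ball_trans (ball_symm hcx) h5) hcy
        refine ball_mono h6 ?_
        have h7 : p.length * (2 * t + 2 * r + 1) ≤ (m - 1) * (2 * t + 2 * r + 1) :=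
          Nat.mul_le_mul_right _ h4
        omega
      · have hJT : J ⊂ T := by
          rw [Finset.ssubset_iff_subset_ne]
          exact ⟨Finset.filter_subset _ _, hJ⟩
        have hJT' : T \ J ⊂ T := by
          rw [Finset.ssubset_iff_subset_ne]
          refine ⟨Finset.sdiff_subset, fun h => ?_⟩
          rw [← h] at hc0
          exact (Finset.mem_sdiff.mp hc0).2 hJ0
        let A : Set V := {x | ∃ c ∈ J, x ∈ ball G c t}
        have hA : ∀ x y, σ' x ≠ σ x → σ' y ≠ σ y → x ∈ A → y ∉ A → y ∉ ball G x (2 * r + 1) := by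
          intro x y hx hy hxA hyA hxy
          obtain ⟨c, hc, hcx⟩ := hxA
          obtain ⟨c', hc', hcy⟩ := hD y hy
          apply hyA
          refine ⟨c', ?_, hcy⟩
          have hcJ : ∃ h : c ∈ T, K.Reachable ⟨c0, hc0⟩ ⟨c, h⟩ := (Finset.mem_filter.mp hc).2
          obtain ⟨hcT, hreach⟩ := hcJ
          simp only [J, Finset.mem_filter]
          refine ⟨hc', hc', ?_⟩
          by_cases hcc : c = c'
          · subst hcc; exact hreach
          · have hadj : K.Adj ⟨c, hcT⟩ ⟨c', hc'⟩ :=
              ⟨fun h => hcc (congrArg Subtype.val h), x, y, hx, hy, hcx, hcy, hxy⟩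
            exact hreach.trans hadj.reachable
        have hA' : ∀ x y, σ x ≠ σ' x → σ y ≠ σ' y → x ∈ A → y ∉ A →
            y ∉ ball G x (2 * r + 1) := fun x y hx hy => hA x y hx.symm hy.symm
        have hcA := split_cover (r := r) I A σ σ' hσ hσ' hA
        have hcB := split_cover (r := r) I A σ' σ hσ' hσ hA'
        have h1 : F.total G σ ≤ F.total G (onA A σ σ') := by
          refine ih J hJT ((Finset.card_le_card hJT.subset).trans hT) _ hcA ?_
          intro v hv
          by_cases hvA : v ∈ A
          · exact hvA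
          · exact absurd (onA_not hvA) hv
        have h2 : F.total G σ ≤ F.total G (onA A σ' σ) := by
          refine ih (T \ J) hJT' ((Finset.card_le_card hJT'.subset).trans hT) _ hcB ?_
          intro v hv
          by_cases hvA : v ∈ A
          · exact absurd (onA_mem hvA) hv
          · rw [onA_not hvA] at hv
            obtain ⟨c, hc, hcv⟩ := hD v hv
            refine ⟨c, Finset.mem_sdiff.mpr ⟨hc, fun h => hvA ⟨c, h, hcv⟩⟩, hcv⟩
        have h3 : F.total G σ' + F.total G σ =
            F.total G (onA A σ σ') + F.total G (onA A σ' σ) := by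
          unfold LocalCost.total
          rw [← Finset.sum_add_distrib, ← Finset.sum_add_distrib]
          exact Finset.sum_congr rfl fun v _ => split_cost F A σ σ' hA v
        linarith
    · have hσσ : σ' = σ := by
        funext v
        by_contra hne
        obtain ⟨c, hc, _⟩ := hD v hne
        exact hT0 ⟨c, hc⟩
      rw [hσσ]


theorem main_pos {U : Type} [Fintype U] {r m t : ℕ} {G : SimpleGraph U} (hm : 1 ≤ m)
    (hG : NoOdd G (m * (2 * t + 2 * r + 1))) [Finite S] (F : LocalCost S r) (I : Set S) :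
    ∀ τ : U → S, G.IsVertexCover (sel I τ) →
    ∃ τ' : U → S, G.IsVertexCover (sel I τ') ∧
      Relation.ReflTransGen (Step F I m t (dc G)) (up τ) (up τ') ∧
      ∀ σ', ¬ Step F I m t (dc G) (up τ') σ' := by
  have hwf : WellFounded fun τ τ' : U → S => F.total G τ < F.total G τ' := by
    have : IsTrans (U → S) fun τ τ' => F.total G τ < F.total G τ' :=
      ⟨fun _ _ _ h h' => h.trans h'⟩
    have : Std.Irrefl fun τ τ' : U → S => F.total G τ < F.total G τ' :=
      ⟨fun _ => lt_irrefl _⟩
    exact Finite.wellFounded_of_trans_of_irrefl _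
  intro τ
  induction τ using hwf.induction with
  | _ τ ih =>
    intro hτ
    by_cases hstuck : ∀ σ', ¬ Step F I m t (dc G) (up τ) σ'
    · exact ⟨τ, hτ, Relation.ReflTransGen.refl, hstuck⟩
    · push Not at hstuck
      obtain ⟨σ', hσ', ⟨T, hT, hD⟩, hlt⟩ := hstuck
      have hup : (dc G).IsVertexCover (sel I (up τ)) := by
        intro x y hxy
        exact hτ hxy.1
      have hG' : NoOdd G ((m - 1) * (2 * t + 2 * r + 1) + 2 * t + 2 * r + 1) := by
        refine hG.mono ?_
        obtain ⟨m, rfl⟩ : ∃ m', m = m' + 1 := ⟨m - 1, by omega⟩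
        rw [Nat.add_sub_cancel]
        ring_nf
        omega
      obtain ⟨σ'', h1, h2, h3, h4⟩ : ∃ σ'' : U × Bool → S, (dc G).IsVertexCover (sel I σ'') ∧
          (∃ T : Finset (U × Bool), T.card ≤ m ∧ ∀ v, σ'' v ≠ up τ v → ∃ c ∈ T,
            v ∈ ball (dc G) c t) ∧
          (∀ x y, σ'' x ≠ up τ x → σ'' y ≠ up τ y →
            y ∈ ball (dc G) x ((m - 1) * (2 * t + 2 * r + 1) + 2 * t)) ∧
          F.total (dc G) σ'' < F.total (dc G) (up τ) := by
        by_contra hcon
        push Not at hcon
        have := opt_of_push F I (up τ) hup (fun σ'' a b c => hcon σ'' a b c) le_rfl T hT σ' hσ' hD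
        linarith
      obtain ⟨h5, h6, h7⟩ := two_steps F I hG' τ σ'' ⟨h1, h2, h4⟩ h3
      obtain ⟨τ', h8, h9, h10⟩ := ih (down τ σ'') h6 h5
      exact ⟨τ', h8, (Relation.ReflTransGen.head ⟨h1, h2, h4⟩
        (Relation.ReflTransGen.head h7 h9)), h10⟩

/-- The main step: on the bipartite double cover of a graph `G` without odd closed walks of length at
most `m (2t + 2r + 1)`, improving moves lead from every lifted vertex cover to a lifted vertex cover
without improving moves. -/
theorem main {U : Type} [Fintype U] {r m t : ℕ} {G : SimpleGraph U}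
    (hG : NoOdd G (m * (2 * t + 2 * r + 1))) [Finite S] (F : LocalCost S r) (I : Set S)
    (τ : U → S) (hτ : G.IsVertexCover (sel I τ)) :
    ∃ τ' : U → S, G.IsVertexCover (sel I τ') ∧
      Relation.ReflTransGen (Step F I m t (dc G)) (up τ) (up τ') ∧
      ∀ σ', ¬ Step F I m t (dc G) (up τ') σ' := by
  rcases Nat.eq_zero_or_pos m with rfl | hm
  · refine ⟨τ, hτ, Relation.ReflTransGen.refl, ?_⟩
    rintro σ' ⟨_, ⟨T, hT, hD⟩, hlt⟩
    have h1 : σ' = up τ := by
      funext v
      by_contra hne
      obtain ⟨c, hc, _⟩ := hD v hne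
      have : T = ∅ := Finset.card_eq_zero.mp (Nat.le_zero.mp hT)
      rw [this] at hc
      exact absurd hc (Finset.notMem_empty c)
    rw [h1] at hlt
    exact lt_irrefl _ hlt
  · exact main_pos hm hG F I τ hτ

end Pool.Agent.TH912.LS
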